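import Pool.Agent.Lib_helper72.KC.F

/-!
# Closed elements from a certificate: fast checks with packed integers
-/

set_option autoImplicit false
set_option linter.unusedSectionVars false
set_option linter.unusedVariables false

namespace Pool.Agent.KC72

/-- a vector as an integer -/
def pk (B : ℤ) : List ℤ → ℤ
  | [] => 0
  | v :: vs => v + B * pk B vs

/-- the product of a row and a column -/
def dotZ : List ℤ → List ℤ → ℤ
  | c :: cs, w :: ws => c * w + dotZ cs ws
  | _, _ => 0

/-- the sum of the absolute values -/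
def sab : List ℤ → ℤ
  | [] => 0
  | c :: cs => |c| + sab cs

/-- bounded entries -/
def bd (M : ℤ) (v : List ℤ) : Prop := ∀ x ∈ v, |x| ≤ M

lemma sab_nonneg (c : List ℤ) : 0 ≤ sab c := by
  induction c with
  | nil => exact le_refl _
  | cons c cs ih => exact add_nonneg (abs_nonneg c) ih

lemma pk_axpy (B a : ℤ) (x y : List ℤ) : pk B (axpy a x y) = a * pk B x + pk B y := by
  induction x generalizing y with
  | nil => simp [axpy, pk]
  | cons x xs ih =>
    cases y with
    | nil => simp only [axpy, pk, ih]; ring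
    | cons y ys => simp only [axpy, pk, ih]; ring

lemma pk_comb (B : ℤ) (c : List ℤ) (V : List (List ℤ)) :
    pk B (comb c V) = dotZ c (V.map (pk B)) := by
  induction c generalizing V with
  | nil => simp [comb, dotZ, pk]
  | cons c cs ih =>
    cases V with
    | nil => simp [comb, dotZ, pk]
    | cons v vs =>
      unfold comb
      split_ifs with h
      · rw [ih, List.map_cons]; simp [dotZ, h]
      · rw [pk_axpy, ih, List.map_cons]; simp [dotZ]

lemma pk_append (B : ℤ) (x y : List ℤ) : pk B (x ++ y) = pk B x + B ^ x.length * pk B y := by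
  induction x with
  | nil => simp [pk]
  | cons x xs ih =>
    rw [List.cons_append, pk, pk, ih, List.length_cons, pow_succ]
    ring

lemma pk_map_mul (B r : ℤ) (a : List ℤ) : pk B (a.map (fun x => r * x)) = r * pk B a := by
  induction a with
  | nil => simp [pk]
  | cons x a ih => rw [List.map_cons, pk, pk, ih]; ring

lemma pk_outer (B : ℤ) (ρ a : List ℤ) :
    pk B (outer ρ a) = pk (B ^ a.length) ρ * pk B a := by
  induction ρ with
  | nil => simp [outer, pk]
  | cons r ρ ih =>
    have h1 : outer (r :: ρ) a = a.map (fun x => r * x) ++ outer ρ a := by simp [outer]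
    rw [h1, pk_append, ih, pk_map_mul, List.length_map, pk]
    ring

lemma bd_mono {M N : ℤ} (h : M ≤ N) {v : List ℤ} (hv : bd M v) : bd N v :=
  fun x hx => (hv x hx).trans h

lemma bd_axpy {M N : ℤ} (hM : 0 ≤ M) (hN : 0 ≤ N) (a : ℤ) {x y : List ℤ} (hx : bd M x)
    (hy : bd N y) : bd (|a| * M + N) (axpy a x y) := by
  induction x generalizing y with
  | nil =>
    simp only [axpy]
    exact bd_mono (by nlinarith [abs_nonneg a]) hy
  | cons x xs ih =>
    have hx0 : |x| ≤ M := hx x (by simp)
    have hx' : bd M xs := fun z hz => hx z (by simp [hz])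
    have m1 : |a * x| ≤ |a| * M := by
      rw [abs_mul]; exact mul_le_mul_of_nonneg_left hx0 (abs_nonneg a)
    cases y with
    | nil =>
      simp only [axpy]
      intro z hz
      rcases List.mem_cons.mp hz with rfl | hz
      · linarith
      · exact ih hx' (y := []) (by intro z hz; simp at hz) z hz
    | cons y ys =>
      have hy0 : |y| ≤ N := hy y (by simp)
      have hy' : bd N ys := fun z hz => hy z (by simp [hz])
      simp only [axpy]
      intro z hz
      rcases List.mem_cons.mp hz with rfl | hz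
      · exact (abs_add_le _ _).trans (add_le_add m1 hy0)
      · exact ih hx' hy' z hz

lemma bd_comb {M : ℤ} (hM : 0 ≤ M) (c : List ℤ) {V : List (List ℤ)} (hV : ∀ v ∈ V, bd M v) :
    bd (sab c * M) (comb c V) := by
  induction c generalizing V with
  | nil => intro x hx; simp [comb] at hx
  | cons c cs ih =>
    have hs := sab_nonneg cs
    cases V with
    | nil => intro x hx; simp [comb] at hx
    | cons v vs =>
      have h1 := ih (V := vs) (fun w hw => hV w (by simp [hw]))
      unfold comb
      split_ifs with h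
      · refine bd_mono ?_ h1
        rw [show sab (c :: cs) = |c| + sab cs from rfl]
        nlinarith [abs_nonneg c]
      · have h2 := bd_axpy hM (mul_nonneg hs hM) c (hV v (by simp)) h1
        refine bd_mono ?_ h2
        rw [sab]
        linarith

lemma isZ_of_pk {B M : ℤ} (hB : 2 * M < B) {v : List ℤ} (hv : bd M v) (h : pk B v = 0) :
    isZ v = true := by
  induction v with
  | nil => rfl
  | cons x v ih =>
    have hx : |x| ≤ M := hv x (by simp)
    have hv' : bd M v := fun z hz => hv z (by simp [hz])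
    rw [pk] at h
    have hM : 0 ≤ M := (abs_nonneg x).trans hx
    have hp : pk B v = 0 := by
      by_contra hne
      have h1 : 1 ≤ |pk B v| := Int.one_le_abs hne
      have h2 : |x| = B * |pk B v| := by
        rw [show x = -(B * pk B v) by linarith, abs_neg, abs_mul, abs_of_pos (by linarith)]
      nlinarith
    have hx0 : x = 0 := by rw [hp] at h; linarith
    simp only [isZ, List.all_cons, Bool.and_eq_true, decide_eq_true_eq]
    exact ⟨hx0, ih hv' hp⟩

/-! ### decoding -/

/-- the digits of `W` in base `B`, shifted by `o` -/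
def decN (B o : ℕ) : ℕ → ℕ → List ℤ
  | 0, _ => []
  | l + 1, W => Int.subNatNat (W % B) o :: decN B o l (W / B)

lemma decN_bd {B o : ℕ} (hB : 0 < B) (hBo : B ≤ 2 * o) (l W : ℕ) : bd o (decN B o l W) := by
  induction l generalizing W with
  | zero => intro x hx; simp [decN] at hx
  | succ l ih =>
    intro x hx
    rw [decN] at hx
    rcases List.mem_cons.mp hx with rfl | hx
    · have h1 := Nat.mod_lt W hB
      rw [Int.subNatNat_eq_coe, abs_le]
      omega
    · exact ih _ x hx

lemma decN_length (B o l W : ℕ) : (decN B o l W).length = l := by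
  induction l generalizing W with
  | zero => rfl
  | succ l ih => rw [decN, List.length_cons, ih]

lemma bd_outer {M N : ℤ} (hM : 0 ≤ M) {ρ a : List ℤ} (hρ : bd M ρ) (ha : bd N a) :
    bd (M * N) (outer ρ a) := by
  intro x hx
  unfold outer at hx
  rw [List.mem_flatMap] at hx
  obtain ⟨r, hr, hx⟩ := hx
  rw [List.mem_map] at hx
  obtain ⟨y, hy, rfl⟩ := hx
  rw [abs_mul]
  exact mul_le_mul (hρ r hr) (ha y hy) (abs_nonneg _) hM

lemma bd_sgl (c : ℕ) (s : ℤ) (hs : |s| ≤ 1) : bd 1 (sgl c s) := by
  intro x hx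
  unfold sgl at hx
  rcases List.mem_append.mp hx with h | h
  · rw [List.eq_of_mem_replicate h]; simp
  · rw [List.mem_singleton.mp h]; exact hs

lemma bd_un (n j : ℕ) : bd 1 (un n j) := by
  intro x hx
  unfold un at hx
  rw [List.mem_map] at hx
  obtain ⟨i, -, rfl⟩ := hx
  unfold dlt
  split_ifs <;> simp

lemma bd_nil (M : ℤ) : bd M [] := by intro x hx; simp at hx

lemma sg6_abs (σ : ℕ) (s : ℤ) (hs : |s| ≤ 1) : |s * sg6 σ| ≤ 1 := by
  have : |sg6 σ| = 1 := by
    rcases σ with _ | _ | _ | _ | _ | σ <;> simp [sg6]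
  rw [abs_mul, this, mul_one]; exact hs

lemma bd_ovecO (s : ℤ) (hs : |s| ≤ 1) (p : Option (ℕ × ℕ)) : bd 1 (ovecO s p) := by
  cases p with
  | none => exact bd_nil 1
  | some p => exact bd_sgl _ _ (sg6_abs _ _ hs)

lemma bd_relv (R : Rel) : bd 5 (relv R) := by
  unfold relv
  have h1 := bd_axpy (by norm_num) (by norm_num) 1 (bd_ovecO (-1) (by simp) R.u)
    (bd_ovecO 1 (by simp) R.w)
  have h2 := bd_axpy (by norm_num) (by norm_num) 1
    (bd_sgl R.z.1 _ (sg6_abs R.z.2 1 (by simp))) h1
  have h3 := bd_axpy (by norm_num) (by norm_num) 1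
    (bd_sgl R.y.1 _ (sg6_abs R.y.2 (-1) (by simp))) h2
  have h4 := bd_axpy (by norm_num) (by norm_num) 1
    (bd_sgl R.x.1 _ (sg6_abs R.x.2 1 (by simp))) h3
  exact bd_mono (by norm_num) h4

/-! ### the packed certificate -/

/-- the packed data of a certificate -/
structure PCert where
  /-- number of generators -/
  n : ℕ
  /-- number of units -/
  r : ℕ
  /-- the base of the packing -/
  b : ℕ
  /-- half of the base -/
  o : ℕ
  /-- the base of the checks -/
  B : ℕ
  /-- a bound of the exponents -/
  MA : ℕ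
  /-- the classes `(f, 1 - f)` -/
  cls : List (Mo × Mo)
  /-- five term relations -/
  rels : List Rel
  /-- the basis classes -/
  bas : List ℕ
  /-- for every class: denominator, combination of relations, combination of basis classes -/
  rho : List (ℤ × ℕ × ℕ)
  /-- denominator of the left inverse -/
  DG : ℤ
  /-- the left inverse -/
  G : List (List (ℕ × ℕ × ℤ))
  /-- denominator of the homotopy -/
  D : ℤ
  /-- coordinates of the triple wedge and the homotopy -/
  Q : List ((ℕ × ℕ × ℕ) × ℕ)
  /-- the class -/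
  xi : List ℤ
  /-- the coefficients of the class -/
  beta : List ℕ
  /-- the trivial relations: class, `f` or `1 - f` -/
  T : List (ℕ × Bool)
  /-- the coefficients of the trivial relations -/
  lam : List (List ℕ)

namespace PCert

variable (P : PCert)

/-- a class -/
def cl (c : ℕ) : Mo × Mo := P.cls.getD c default

/-- decoding -/
def dec (l W : ℕ) : List ℤ := decN P.b P.o l W

/-- the rows -/
def rho' : List (ℤ × List ℤ × List ℤ) :=
  P.rho.map (fun p => (p.1, P.dec P.rels.length p.2.1, P.dec P.bas.length p.2.2))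

/-- the exponents in a trivial relation -/
def Ta (t : ℕ × Bool) : List ℤ := if t.2 then (P.cl t.1).2.2 else (P.cl t.1).1.2

/-- the certificate -/
def toCert : Cert where
  n := P.n
  r := P.r
  cls := P.cls
  rels := P.rels
  bas := P.bas
  rho := P.rho'
  DG := P.DG
  G := P.G
  D := P.D
  Q := P.Q.map (fun q => (q.1, P.dec (P.bas.length * P.n) q.2))
  xi := P.xi
  beta := P.beta.map (P.dec P.n)
  T := P.T.map (fun t => (t, outer (P.rho'.getD t.1 default).2.2 (P.Ta t)))
  lam := P.lam.map (fun l => l.map (P.dec P.T.length))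

/-- packed relations -/
def RW : List ℤ := P.rels.map (fun R => pk P.B (relv R))

/-- packed basis vectors -/
def BW : List ℤ := P.bas.map (fun i => pk P.B (sgl i 1))

/-- packed homotopy -/
def QW : List ℤ := P.Q.map (fun q => pk P.B (P.dec (P.bas.length * P.n) q.2))

/-- packed trivial relations -/
def TW : List ℤ :=
  P.T.map (fun t => pk (P.B ^ P.n) (P.rho'.getD t.1 default).2.2 * pk P.B (P.Ta t))

/-- packed class -/
def XW : ℤ := pk P.B P.xi

/-- a class is a combination of basis classes -/
def f2 (c : ℕ) : Bool :=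
  let p := P.rho'.getD c default
  decide (p.1 ≠ 0) && decide (-p.1 * pk P.B (sgl c 1) + (1 * dotZ p.2.2 P.BW + dotZ p.2.1 P.RW) = 0) &&
    decide (2 * (|-p.1| * 1 + (|1| * (sab p.2.2 * 1) + sab p.2.1 * 5)) < P.B)

/-- the trivial relations are well formed -/
def f5 : Bool := P.T.all (fun t => decide (t.1 < P.cls.length) && decide ((P.Ta t).length = P.n) &&
  (P.Ta t).all (fun x => decide (|x| ≤ P.MA)))

/-- the homotopy -/
def f6 (c j : ℕ) : Bool :=
  let p := P.cl (P.bas.getD c 0)
  let d := P.Q.map (fun q => det3L p.2.2 p.1.2 j q.1)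
  let β := (P.toCert.beta.getD c []).getD j 0
  let l := (P.toCert.lam.getD c []).getD j []
  decide (-P.D * (pk (P.B ^ P.n) (sgl c 1) * pk P.B (un P.n j)) +
    (1 * dotZ d P.QW + (β * P.XW + dotZ l P.TW)) = 0) &&
  decide (2 * (|-P.D| * 1 + (|1| * (sab d * P.o) + (|β| * P.o + sab l * (P.o * P.MA)))) < P.B)

/-- all checks except `f2`, `f6`, `c1`, `c3` -/
def f0 : Bool :=
  decide (0 < P.b) && decide (P.b ≤ 2 * P.o) && decide (P.r ≤ P.n) && decide (P.DG ≠ 0) &&
  decide (P.D ≠ 0) && P.toCert.chk3' && P.toCert.chk4 && P.f5 && P.toCert.chk7 &&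
  P.xi.all (fun x => decide (|x| ≤ P.o))

end PCert

lemma dec_bd (P : PCert) (h1 : 0 < P.b) (h2 : P.b ≤ 2 * P.o) (l W : ℕ) : bd P.o (P.dec l W) :=
  decN_bd h1 h2 l W

lemma rho'_bd (P : PCert) (h1 : 0 < P.b) (h2 : P.b ≤ 2 * P.o) (c : ℕ) :
    bd P.o (P.rho'.getD c default).2.2 := by
  unfold PCert.rho'
  rw [List.getD_eq_getElem?_getD, List.getElem?_map]
  rcases P.rho[c]? with _ | p
  · exact bd_nil _
  · exact dec_bd P h1 h2 _ _

/-- **the fast checks imply the checks** -/
theorem ok_of_fast (P : PCert) (h0 : P.f0 = true) (h1 : P.toCert.chk1 = true)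
    (h2 : ∀ c < P.cls.length, P.f2 c = true)
    (h3 : ∀ c < P.bas.length, ∀ c' < P.bas.length, P.toCert.chk3 c c' = true)
    (h6 : ∀ c < P.bas.length, ∀ j < P.n, P.f6 c j = true) : Ok P.toCert := by
  unfold PCert.f0 at h0
  simp only [Bool.and_eq_true, decide_eq_true_eq] at h0
  obtain ⟨⟨⟨⟨⟨⟨⟨⟨⟨hb, hbo⟩, hr⟩, hDG⟩, hD⟩, h3'⟩, h4⟩, h5⟩, h7⟩, hxi⟩ := h0
  have hxi' : bd P.o P.xi := by
    rw [List.all_eq_true] at hxi
    intro x hx
    exact of_decide_eq_true (hxi x hx)
  unfold PCert.f5 at h5
  simp only [List.all_eq_true, Bool.and_eq_true, decide_eq_true_eq] at h5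
  have ho : (0 : ℤ) ≤ P.o := Int.natCast_nonneg _
  have hMA : (0 : ℤ) ≤ P.MA := Int.natCast_nonneg _
  refine ⟨hr, hDG, hD, h1, ?_, h3, h3', h4, ?_, ?_, h7⟩
  · -- combinations of basis classes
    intro c hc
    have h := h2 c hc
    unfold PCert.f2 at h
    simp only [Bool.and_eq_true, decide_eq_true_eq] at h
    obtain ⟨⟨e1, e2⟩, e3⟩ := h
    unfold Cert.chk2
    simp only [Bool.and_eq_true, decide_eq_true_eq]
    refine ⟨e1, ?_⟩
    set p := P.rho'.getD c default with hp
    have s1 : bd (sab p.2.2 * 1) (comb p.2.2 (P.bas.map (fun i => sgl i 1))) :=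
      bd_comb (by norm_num) _ (by
        intro v hv
        rw [List.mem_map] at hv
        obtain ⟨i, -, rfl⟩ := hv
        exact bd_sgl i 1 (by simp))
    have s2 : bd (sab p.2.1 * 5) (comb p.2.1 (P.rels.map relv)) :=
      bd_comb (by norm_num) _ (by
        intro v hv
        rw [List.mem_map] at hv
        obtain ⟨R, -, rfl⟩ := hv
        exact bd_relv R)
    have n1 : 0 ≤ sab p.2.2 * 1 := mul_nonneg (sab_nonneg _) (by norm_num)
    have n2 : 0 ≤ sab p.2.1 * 5 := mul_nonneg (sab_nonneg _) (by norm_num)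
    have s3 := bd_axpy n1 n2 1 s1 s2
    have s4 := bd_axpy (by norm_num) (add_nonneg (mul_nonneg (abs_nonneg _) n1) n2) (-p.1)
      (bd_sgl c 1 (by simp)) s3
    refine isZ_of_pk e3 s4 ?_
    rw [pk_axpy, pk_axpy, pk_comb, pk_comb, List.map_map, List.map_map]
    exact e2
  · -- trivial relations
    unfold Cert.chk5
    rw [List.all_eq_true]
    intro T hT
    have hT' : T ∈ P.T.map (fun t => (t, outer (P.rho'.getD t.1 default).2.2 (P.Ta t))) := hT
    rw [List.mem_map] at hT'
    obtain ⟨t, ht, rfl⟩ := hT'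
    obtain ⟨⟨g1, g2⟩, g3⟩ := h5 t ht
    simp only [Bool.and_eq_true, decide_eq_true_eq]
    refine ⟨⟨g1, g2⟩, ?_⟩
    have z : ∀ v : List ℤ, isZ (axpy (-1) v v) = true := by
      intro v
      induction v with
      | nil => rfl
      | cons x v ih =>
        simp only [axpy, isZ, List.all_cons, Bool.and_eq_true, decide_eq_true_eq]
        exact ⟨by ring, ih⟩
    exact z _
  · -- the homotopy
    intro c hc j hj
    have h := h6 c hc j hj
    unfold PCert.f6 at h
    simp only [Bool.and_eq_true, decide_eq_true_eq] at h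
    obtain ⟨e1, e2⟩ := h
    unfold Cert.chk6
    set p := P.cl (P.bas.getD c 0) with hp
    set d := P.Q.map (fun q => det3L p.2.2 p.1.2 j q.1) with hd
    set β := (P.toCert.beta.getD c []).getD j 0 with hβ
    set l := (P.toCert.lam.getD c []).getD j [] with hl
    have hd' : (P.toCert.Q.map (fun q => det3L (P.toCert.cl (P.toCert.bas.getD c 0)).2.2
        (P.toCert.cl (P.toCert.bas.getD c 0)).1.2 j q.1)) = d := by
      show (P.Q.map (fun q => (q.1, P.dec (P.bas.length * P.n) q.2))).map _ = _
      rw [List.map_map]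
      rfl
    simp only [hd']
    have s1 : bd (sab d * P.o) (comb d (P.toCert.Q.map Prod.snd)) :=
      bd_comb ho _ (by
        intro v hv
        have hv' : v ∈ (P.Q.map (fun q => (q.1, P.dec (P.bas.length * P.n) q.2))).map Prod.snd := hv
        rw [List.map_map, List.mem_map] at hv'
        obtain ⟨q, -, rfl⟩ := hv'
        exact dec_bd P hb hbo _ _)
    have s2 : bd (sab l * (P.o * P.MA)) (comb l (P.toCert.T.map Prod.snd)) :=
      bd_comb (mul_nonneg ho hMA) _ (by
        intro v hv
        have hv' : v ∈ (P.T.map (fun t => (t, outer (P.rho'.getD t.1 default).2.2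
          (P.Ta t)))).map Prod.snd := hv
        rw [List.map_map, List.mem_map] at hv'
        obtain ⟨t, ht, rfl⟩ := hv'
        obtain ⟨⟨g1, g2⟩, g3⟩ := h5 t ht
        exact bd_outer ho (rho'_bd P hb hbo t.1) g3)
    have n2 : 0 ≤ sab l * (P.o * (P.MA : ℤ)) := mul_nonneg (sab_nonneg _) (mul_nonneg ho hMA)
    have n1 : 0 ≤ sab d * (P.o : ℤ) := mul_nonneg (sab_nonneg _) ho
    have s3 := bd_axpy ho n2 β hxi' s2
    have n3 : 0 ≤ |β| * (P.o : ℤ) + sab l * (P.o * P.MA) :=
      add_nonneg (mul_nonneg (abs_nonneg _) ho) n2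
    have s4 := bd_axpy n1 n3 1 s1 s3
    have n4 : 0 ≤ |1| * (sab d * (P.o : ℤ)) + (|β| * P.o + sab l * (P.o * P.MA)) :=
      add_nonneg (mul_nonneg (abs_nonneg _) n1) n3
    have s0 : bd 1 (outer (sgl c 1) (un P.n j)) := by
      have := bd_outer (M := 1) (N := 1) (by norm_num) (bd_sgl c 1 (by simp)) (bd_un P.n j)
      exact bd_mono (by norm_num) this
    have s5 := bd_axpy (M := 1) (x := outer (sgl c 1) (un P.n j)) (by norm_num) n4 (-P.D) s0 s4
    refine isZ_of_pk (B := P.B) e2 s5 ?_
    rw [pk_axpy, pk_axpy, pk_axpy, pk_comb, pk_comb, pk_outer, un_length]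
    have q1 : (P.toCert.Q.map Prod.snd).map (pk P.B) = P.QW := by
      show ((P.Q.map (fun q => (q.1, P.dec (P.bas.length * P.n) q.2))).map Prod.snd).map _ = _
      rw [List.map_map, List.map_map]
      rfl
    have q2 : (P.toCert.T.map Prod.snd).map (pk P.B) = P.TW := by
      show ((P.T.map (fun t => (t, outer (P.rho'.getD t.1 default).2.2
        (P.Ta t)))).map Prod.snd).map _ = _
      rw [List.map_map, List.map_map]
      unfold PCert.TW
      refine List.map_congr_left fun t ht => ?_
      show pk P.B (outer (P.rho'.getD t.1 default).2.2 (P.Ta t)) = _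
      rw [pk_outer, (h5 t ht).1.2]
    rw [q1, q2]
    exact e1

end Pool.Agent.KC72
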