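import Pool.Agent.Lib_helper72.KC.P

/-!
# Closed elements from a certificate: wrapper
-/

set_option autoImplicit false
set_option linter.unusedSectionVars false
set_option linter.unusedVariables false

open scoped TensorProduct

namespace Pool.Agent.KC72

open TN MK4

section

variable {k : Type*} [Field k] {F : Type*} [Field F] [Algebra k F]

/-- closed elements from the unit equation and a certificate, with named parameters -/
theorem closed_of_cert' [CharZero F] (C : Cert) (hC : Ok C) {n r : ℕ} (hn : C.n = n)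
    (hr : C.r = r) {cls : List (Mo × Mo)} (hcl : C.cls = cls) {G : Fin n → F}
    (hG : ∀ i, G i ≠ 0) (hk : ∀ i : Fin n, r ≤ i.val → ∃ c : k, G i = algebraMap k F c)
    (hI : ∀ q : Fin n → ℚ, ∑ i, q i • lg (G i) ∈ V0 k F → ∀ i : Fin n, i.val < r → q i = 0)
    (hJ : LinearIndependent ℚ (fun i => lg (G i)))
    (H : Sols (List.ofFn G) cls) (U : F → Prop)
    (hU : ∀ h, U h → U (1 - h) → (∃ c : k, h = algebraMap k F c) ∨
      ∃ p ∈ cls, Orb (ev (List.ofFn G) p.1) h)
    {z : HK F} (hz : z ∈ Submodule.span ℚ {z : HK F | ∃ (f : F) (u : FT F),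
      U f ∧ U (1 - f) ∧ z = MK4.hk (sy f) u}) (hc : Closed z) :
    ∃ β : ℚ, (KC k F).mkQ z = β • pl (EB C k (List.ofFn G)) C.xi := by
  subst hn hr hcl
  refine closed_of_cert C hC hG hk hI hJ H U ?_ hz hc
  intro h h1 h2
  rcases hU h h1 h2 with h3 | ⟨p, hp, h3⟩
  · exact Or.inl h3
  · right
    obtain ⟨i, hi, rfl⟩ := List.getElem_of_mem hp
    exact ⟨⟨i, hi⟩, h3⟩

end

end Pool.Agent.KC72
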