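import Pool.Agent.Lib_helper72.KC.E

/-!
# Closed elements from a certificate: from the unit equation to the closed elements
-/

set_option autoImplicit false
set_option linter.unusedSectionVars false
set_option linter.unusedVariables false

open scoped TensorProduct

namespace Pool.Agent.KC72

open TN MK4

section

variable {k : Type*} [Field k] {F : Type*} [Field F] [Algebra k F]

lemma lgprod {n : ℕ} (X : Fin n → F) (hX : ∀ i, X i ≠ 0) (e : Fin n → ℤ) :
    lg (∏ i, X i ^ e i) = ∑ i, (e i : ℚ) • lg (X i) := by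
  have gen : ∀ (s : Finset (Fin n)), lg (∏ i ∈ s, X i ^ e i) = ∑ i ∈ s, (e i : ℚ) • lg (X i) := by
    intro s
    induction s using Finset.induction_on with
    | empty => rw [Finset.prod_empty, Finset.sum_empty, lg1]
    | insert a s ha ih =>
      rw [Finset.prod_insert ha, Finset.sum_insert ha, lgmul (zpow_ne_zero _ (hX _))
        (Finset.prod_ne_zero_iff.mpr fun i _ => zpow_ne_zero _ (hX i)), lgzpow (hX _), ih]
  exact gen _

/-- multiplicatively independent elements -/
theorem li_lg {n : ℕ} (X : Fin n → F) (hX : ∀ i, X i ≠ 0)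
    (hc : ∀ e : Fin n → ℤ, ∏ i, X i ^ e i = 1 → e = 0) :
    LinearIndependent ℚ (fun i => lg (X i)) := by
  rw [Fintype.linearIndependent_iff]
  intro q hq
  obtain ⟨D, hD, m, hm⟩ : ∃ D : ℕ, 0 < D ∧ ∃ m : Fin n → ℤ, ∀ i, (D : ℚ) * q i = m i := by
    refine ⟨∏ i, (q i).den, Finset.prod_pos fun i _ => (q i).den_pos,
      fun i => (q i).num * ∏ j ∈ Finset.univ.erase i, ((q j).den : ℤ), fun i => ?_⟩
    have h1 : (∏ j, ((q j).den : ℚ)) =
        (q i).den * ∏ j ∈ Finset.univ.erase i, ((q j).den : ℚ) :=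
      (Finset.mul_prod_erase _ _ (Finset.mem_univ i)).symm
    push_cast
    rw [h1]
    have := Rat.mul_den_eq_num (q i)
    rw [← this]
    ring
  have h1 : lg (∏ i, X i ^ m i) = 0 := by
    rw [lgprod X hX]
    have : ∑ i, (m i : ℚ) • lg (X i) = (D : ℚ) • ∑ i, q i • lg (X i) := by
      rw [Finset.smul_sum]
      refine Finset.sum_congr rfl fun i _ => ?_
      rw [smul_smul, hm]
    rw [this, hq, smul_zero]
  obtain ⟨M, hM, h2⟩ := pow_eq_one_of_lg
    (Finset.prod_ne_zero_iff.mpr fun i _ => zpow_ne_zero _ (hX i)) h1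
  have h3 : ∏ i, X i ^ (m i * M) = 1 := by
    rw [← h2, ← Finset.prod_pow]
    refine Finset.prod_congr rfl fun i _ => ?_
    rw [zpow_mul, zpow_natCast]
  have h4 := hc _ h3
  intro i
  have h5 := congrFun h4 i
  simp only [Pi.zero_apply] at h5
  have h6 : m i = 0 := by
    rcases mul_eq_zero.mp h5 with h | h
    · exact h
    · exact absurd h (by exact_mod_cast hM.ne')
  have h7 := hm i
  rw [h6, Int.cast_zero] at h7
  rcases mul_eq_zero.mp h7 with h | h
  · exact absurd h (by exact_mod_cast hD.ne')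
  · exact h

/-- the first hypothesis on independence -/
theorem hI_of {n r : ℕ} (hr : r ≤ n) (G : Fin n → F) (hG : ∀ i, G i ≠ 0)
    (hk : ∀ i : Fin n, r ≤ i.val → ∃ c : k, G i = algebraMap k F c)
    (hc : ∀ (e : Fin r → ℤ) (c : k), c ≠ 0 → ∏ i, G (Fin.castLE hr i) ^ e i = algebraMap k F c →
      e = 0) (q : Fin n → ℚ) (hq : ∑ i, q i • lg (G i) ∈ V0 k F) (i : Fin n) (hi : i.val < r) :
    q i = 0 := by
  classical
  have h1 : ∑ i : Fin r, q (Fin.castLE hr i) • lg (G (Fin.castLE hr i)) ∈ V0 k F := by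
    have h2 : ∑ i : Fin n, q i • lg (G i) =
        ∑ i : Fin r, q (Fin.castLE hr i) • lg (G (Fin.castLE hr i)) +
        ∑ i ∈ Finset.univ.filter (fun i : Fin n => r ≤ i.val), q i • lg (G i) := by
      rw [← Finset.sum_filter_add_sum_filter_not Finset.univ (fun i : Fin n => i.val < r)]
      congr 1
      · refine Eq.trans ?_ (Finset.sum_map Finset.univ (Fin.castLEEmb hr)
          (fun i => q i • lg (G i)))
        refine Finset.sum_congr ?_ fun _ _ => rfl
        ext j
        simp only [Finset.mem_map, Finset.mem_univ, true_and, Finset.mem_filter]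
        constructor
        · intro h; exact ⟨⟨j.val, h⟩, Fin.ext rfl⟩
        · rintro ⟨i, rfl⟩; simp
      · refine Finset.sum_congr ?_ fun _ _ => rfl
        ext j
        simp
    have h3 : ∑ i ∈ Finset.univ.filter (fun i : Fin n => r ≤ i.val), q i • lg (G i) ∈ V0 k F := by
      refine Submodule.sum_mem _ fun i hi => Submodule.smul_mem _ _ ?_
      simp only [Finset.mem_filter, Finset.mem_univ, true_and] at hi
      obtain ⟨c, hc⟩ := hk i hi
      rw [hc]
      exact lg_mem_V0 c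
    have h4 := Submodule.sub_mem _ hq h3
    rwa [h2, add_sub_cancel_right] at h4
  have h2 := indep_lg (k := k) (fun i : Fin r => G (Fin.castLE hr i)) (fun i => hG _) hc
    (fun i => q (Fin.castLE hr i)) h1
  have h3 := congrFun h2 ⟨i.val, hi⟩
  exact h3

/-- the second hypothesis on independence -/
theorem hJ_of {n r : ℕ} (hr : r ≤ n) (G : Fin n → F) (hG : ∀ i, G i ≠ 0)
    (hI : ∀ q : Fin n → ℚ, ∑ i, q i • lg (G i) ∈ V0 k F → ∀ i : Fin n, i.val < r → q i = 0)
    (hc : ∀ e : Fin n → ℤ, (∀ i : Fin n, i.val < r → e i = 0) → ∏ i, G i ^ e i = 1 → e = 0) :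
    LinearIndependent ℚ (fun i => lg (G i)) := by
  apply li_lg G hG
  intro e he
  apply hc e _ he
  intro i hi
  have h1 : ∑ i, (e i : ℚ) • lg (G i) ∈ V0 k F := by
    rw [← lgprod G hG, he, lg1]
    exact Submodule.zero_mem _
  have := hI (fun i => (e i : ℚ)) h1 i hi
  exact_mod_cast this

/-- elements of the span -/
lemma decomp [CharZero F] (U : F → Prop) {L : ℕ} (f : Fin L → F) (hf : ∀ i, f i ≠ 1)
    (hU : ∀ h, U h → U (1 - h) → (∃ c : k, h = algebraMap k F c) ∨ ∃ i, Orb (f i) h)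
    {z : HK F} (hz : z ∈ Submodule.span ℚ {z : HK F | ∃ (f : F) (u : FT F),
      U f ∧ U (1 - f) ∧ z = hk (sy f) u}) :
    ∃ (u : Fin L → FT F) (κ : HK F), κ ∈ KC k F ∧ z = ∑ i, hk (sy (f i)) (u i) + κ := by
  classical
  have single : ∀ (i : Fin L) (u : FT F),
      ∑ j, hk (sy (f j)) (if j = i then u else 0) = hk (sy (f i)) u := by
    intro i u
    rw [Finset.sum_eq_single i]
    · rw [if_pos rfl]
    · intro j _ hj; rw [if_neg hj, hk_zero_right]
    · intro h; exact absurd (Finset.mem_univ i) h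
  induction hz using Submodule.span_induction with
  | mem z hz =>
    obtain ⟨h, u, h1, h2, rfl⟩ := hz
    rcases hU h h1 h2 with ⟨c, rfl⟩ | ⟨i, h3⟩
    · refine ⟨fun _ => 0, _, Submodule.subset_span ⟨c, u, rfl⟩, ?_⟩
      simp [hk_zero_right]
    · rcases sy_orb (hf i) h3 with h4 | h4
      · exact ⟨fun j => if j = i then u else 0, 0, Submodule.zero_mem _, by
          rw [h4, single, add_zero]⟩
      · exact ⟨fun j => if j = i then -u else 0, 0, Submodule.zero_mem _, by
          rw [h4, single, add_zero, hk_neg_left, hk_neg_right]⟩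
  | zero =>
    refine ⟨fun _ => 0, 0, Submodule.zero_mem _, ?_⟩
    simp [hk_zero_right]
  | add a b _ _ ha hb =>
    obtain ⟨u, κ, hκ, rfl⟩ := ha
    obtain ⟨u', κ', hκ', rfl⟩ := hb
    refine ⟨fun i => u i + u' i, κ + κ', Submodule.add_mem _ hκ hκ', ?_⟩
    simp only [hk_add_right, Finset.sum_add_distrib]
    abel
  | smul q a _ ha =>
    obtain ⟨u, κ, hκ, rfl⟩ := ha
    refine ⟨fun i => q • u i, q • κ, Submodule.smul_mem _ _ hκ, ?_⟩
    simp only [hk_smul_right, ← Finset.smul_sum, smul_add]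

/-- **closed elements from the unit equation and a certificate** -/
theorem closed_of_cert [CharZero F] (C : Cert) (hC : Ok C) {G : Fin C.n → F} (hG : ∀ i, G i ≠ 0)
    (hk : ∀ i : Fin C.n, C.r ≤ i.val → ∃ c : k, G i = algebraMap k F c)
    (hI : ∀ q : Fin C.n → ℚ, ∑ i, q i • lg (G i) ∈ V0 k F → ∀ i : Fin C.n, i.val < C.r → q i = 0)
    (hJ : LinearIndependent ℚ (fun i => lg (G i)))
    (H : Sols (List.ofFn G) C.cls) (U : F → Prop)
    (hU : ∀ h, U h → U (1 - h) → (∃ c : k, h = algebraMap k F c) ∨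
      ∃ i : Fin C.cls.length, Orb (ev (List.ofFn G) (C.cls.get i).1) h)
    {z : HK F} (hz : z ∈ Submodule.span ℚ {z : HK F | ∃ (f : F) (u : FT F),
      U f ∧ U (1 - f) ∧ z = MK4.hk (sy f) u}) (hc : Closed z) :
    ∃ β : ℚ, (KC k F).mkQ z = β • pl (EB C k (List.ofFn G)) C.xi := by
  have hg : ∀ x ∈ List.ofFn G, x ≠ 0 := by
    intro x hx
    rw [List.mem_ofFn] at hx
    obtain ⟨i, rfl⟩ := hx
    exact hG i
  have hf : ∀ i : Fin C.cls.length, ev (List.ofFn G) (C.cls.get i).1 ≠ 1 := by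
    intro i h
    have h1 := H _ (List.get_mem C.cls i)
    apply ev_ne hg (C.cls.get i).2
    linear_combination h1 - h
  obtain ⟨u, κ, hκ, rfl⟩ := decomp U (fun i => ev (List.ofFn G) (C.cls.get i).1) hf hU hz
  have hk' : ∀ x ∈ (List.ofFn G).drop C.r, ∃ c : k, x = algebraMap k F c := by
    intro x hx
    rw [List.mem_drop_iff_getElem] at hx
    obtain ⟨i, hi, rfl⟩ := hx
    rw [List.getElem_ofFn]
    exact hk _ (by simp)
  obtain ⟨β, hβ⟩ := cert_main C hC hG hk' hI hJ H u hκ hc
  refine ⟨β, ?_⟩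
  rw [map_add, hβ, (show (KC k F).mkQ κ = 0 from (Submodule.Quotient.mk_eq_zero _).mpr hκ),
    add_zero]

end

end Pool.Agent.KC72
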