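import Pool.Agent.Lib_helper72.KC.C

/-!
# Closed elements from a certificate: the checker
-/

set_option autoImplicit false
set_option linter.unusedSectionVars false
set_option linter.unusedVariables false

open scoped TensorProduct

namespace Pool.Agent.KC72

open TN MK4

/-- the data of a certificate -/
structure Cert where
  /-- number of generators -/
  n : ℕ
  /-- number of units -/
  r : ℕ
  /-- the classes `(f, 1 - f)` -/
  cls : List (Mo × Mo)
  /-- five term relations -/
  rels : List Rel
  /-- the basis classes -/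
  bas : List ℕ
  /-- for every class: denominator, combination of relations, combination of basis classes -/
  rho : List (ℤ × List ℤ × List ℤ)
  /-- denominator of the left inverse -/
  DG : ℤ
  /-- the left inverse -/
  G : List (List (ℕ × ℕ × ℤ))
  /-- denominator of the homotopy -/
  D : ℤ
  /-- coordinates of the triple wedge and the homotopy -/
  Q : List ((ℕ × ℕ × ℕ) × List ℤ)
  /-- the class -/
  xi : List ℤ
  /-- the coefficients of the class -/
  beta : List (List ℤ)
  /-- the trivial relations: class, `f` or `1 - f`, the vector -/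
  T : List ((ℕ × Bool) × List ℤ)
  /-- the coefficients of the trivial relations -/
  lam : List (List (List ℤ))

/-- `δ_{ij}` -/
def dlt (i j : ℕ) : ℤ := if i = j then 1 else 0

/-- the coordinate `q` of `b ∧ a ∧ e_j` -/
def det3L (b a : List ℤ) (j : ℕ) (q : ℕ × ℕ × ℕ) : ℤ :=
  (b.getD q.1 0 * a.getD q.2.1 0 - a.getD q.1 0 * b.getD q.2.1 0) * dlt q.2.2 j -
    (b.getD q.1 0 * dlt q.2.1 j - dlt q.1 j * b.getD q.2.1 0) * a.getD q.2.2 0 +
    (a.getD q.1 0 * dlt q.2.1 j - dlt q.1 j * a.getD q.2.1 0) * b.getD q.2.2 0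

/-- the minor -/
def min2 (b a : List ℤ) (i j : ℕ) : ℤ :=
  b.getD i 0 * a.getD j 0 - a.getD i 0 * b.getD j 0

/-- the unit vector -/
def un (n j : ℕ) : List ℤ := (List.range n).map (fun i => dlt i j)

namespace Cert

variable (C : Cert)

/-- a class -/
def cl (c : ℕ) : Mo × Mo := C.cls.getD c default

/-- all relations hold -/
def chk1 : Bool := C.rels.all (chkR C.r C.cls)

/-- the class `c` is a combination of basis classes -/
def chk2 (c : ℕ) : Bool :=
  let p := C.rho.getD c default
  decide (p.1 ≠ 0) && isZ (axpy (-p.1) (sgl c 1) (axpy 1 (comb p.2.2 (C.bas.map (fun i => sgl i 1)))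
    (comb p.2.1 (C.rels.map relv))))

/-- the left inverse -/
def chk3 (c c' : ℕ) : Bool :=
  let p := C.cl (C.bas.getD c' 0)
  decide (((C.G.getD c []).map (fun e => e.2.2 * min2 p.2.2 p.1.2 e.1 e.2.1)).sum =
    if c = c' then C.DG else 0)

/-- the indices of the left inverse -/
def chk3' : Bool := C.G.all (fun l => l.all (fun e => decide (e.1 < C.r) && decide (e.2.1 < C.r)))

/-- the indices of the coordinates -/
def chk4 : Bool := C.Q.all (fun q => decide (q.1.1 < C.r) && decide (q.1.2.1 < C.r) &&
  decide (q.1.2.2 < C.n))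

/-- the trivial relations -/
def chk5 : Bool := C.T.all (fun t =>
  let p := C.cl t.1.1
  let a := if t.1.2 then p.2.2 else p.1.2
  decide (t.1.1 < C.cls.length) && decide (a.length = C.n) &&
    isZ (axpy (-1) t.2 (outer (C.rho.getD t.1.1 default).2.2 a)))

/-- the homotopy -/
def chk6 (c j : ℕ) : Bool :=
  let p := C.cl (C.bas.getD c 0)
  isZ (axpy (-C.D) (outer (sgl c 1) (un C.n j))
    (axpy 1 (comb (C.Q.map (fun q => det3L p.2.2 p.1.2 j q.1)) (C.Q.map Prod.snd))
      (axpy ((C.beta.getD c []).getD j 0) C.xi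
        (comb ((C.lam.getD c []).getD j []) (C.T.map Prod.snd)))))

/-- the exponents of the basis classes have length `n` -/
def chk7 : Bool := C.bas.all (fun i => decide (i < C.cls.length) &&
  decide ((C.cl i).1.2.length = C.n) && decide ((C.cl i).2.2.length = C.n))

/-- everything -/
def chk : Bool :=
  decide (C.r ≤ C.n) && decide (C.DG ≠ 0) && decide (C.D ≠ 0) && C.chk1 &&
    (List.range C.cls.length).all C.chk2 &&
    (List.range C.bas.length).all (fun c => (List.range C.bas.length).all (C.chk3 c)) &&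
    C.chk3' && C.chk4 && C.chk5 &&
    (List.range C.bas.length).all (fun c => (List.range C.n).all (C.chk6 c)) && C.chk7

end Cert

section Aux

variable {M : Type*} [AddCommGroup M] [Module ℚ M]

lemma pl_map_map {α : Type*} (L : List α) (f : α → M) (h : α → ℤ) :
    pl (L.map f) (L.map h) = ∑ q : Fin L.length, ((h (L.get q) : ℤ) : ℚ) • f (L.get q) := by
  induction L with
  | nil => simp
  | cons p L ih =>
    rw [List.map_cons, List.map_cons, pl_cons, ih]
    symm
    exact Fin.sum_univ_succ _

lemma un_getD (n j i : ℕ) (hi : i < n) : (un n j).getD i 0 = dlt i j := by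
  unfold un
  rw [List.getD_eq_getElem?_getD, List.getElem?_map, List.getElem?_range hi]
  rfl

lemma pl_un {n : ℕ} (g : Fin n → M) (j : Fin n) : pl (List.ofFn g) (un n j.val) = g j := by
  rw [pl_ofFn]
  have h : ∀ i : Fin n, (((un n j.val).getD i.val 0 : ℤ) : ℚ) • g i = if i = j then g i else 0 := by
    intro i
    rw [un_getD _ _ _ i.isLt]
    unfold dlt
    by_cases hij : i = j
    · rw [if_pos hij, if_pos (by rw [hij])]; simp
    · rw [if_neg hij, if_neg (fun h => hij (Fin.ext h))]; simp
  simp only [h]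
  simp

lemma un_length (n j : ℕ) : (un n j).length = n := by simp [un]

end Aux

section Main

variable {k : Type*} [Field k] {F : Type*} [Field F] [Algebra k F]

/-- the basis symbols -/
noncomputable def Bl (C : Cert) (k : Type*) [Field k] [Algebra k F] (g : List F) :
    List (FT F →ₗ[ℚ] (HK F ⧸ KC k F)) :=
  C.bas.map (fun i => (EW (F := F) k g C.cls).getD i 0)

/-- the generators of the space -/
noncomputable def EB (C : Cert) (k : Type*) [Field k] [Algebra k F] (g : List F) :
    List (HK F ⧸ KC k F) :=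
  (Bl C k g).flatMap (fun B : FT F →ₗ[ℚ] (HK F ⧸ KC k F) => (g.map lg).map B)

/-- every class is a combination of basis classes -/
lemma rho_spec [CharZero F] (C : Cert) (h1 : C.chk1 = true) {g : List F} (hg : ∀ x ∈ g, x ≠ 0)
    (hk : ∀ x ∈ g.drop C.r, ∃ c : k, x = algebraMap k F c) (H : Sols g C.cls) {c : ℕ}
    (h2 : C.chk2 c = true) :
    (C.rho.getD c default).1 ≠ 0 ∧ ((C.rho.getD c default).1 : ℚ) • (EW k g C.cls).getD c 0 =
      pl (Bl C k g) (C.rho.getD c default).2.2 := by
  unfold Cert.chk2 at h2
  simp only [Bool.and_eq_true, decide_eq_true_eq] at h2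
  refine ⟨h2.1, ?_⟩
  have h3 := pl_isZ (EW k g C.cls) h2.2
  rw [pl_axpy, pl_axpy, pl_comb, pl_comb, pl_sgl] at h3
  have h4 : pl (((C.rels.map relv).map (pl (EW k g C.cls)))) (C.rho.getD c default).2.1 = 0 := by
    apply pl_zero
    intro e he
    rw [List.map_map, List.mem_map] at he
    obtain ⟨R, hR, rfl⟩ := he
    unfold Cert.chk1 at h1
    rw [List.all_eq_true] at h1
    exact relv_zero hg hk H (h1 R hR)
  have h5 : ((C.bas.map (fun i => sgl i 1)).map (pl (EW k g C.cls))) = Bl C k g := by
    unfold Bl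
    rw [List.map_map]
    refine List.map_congr_left fun i _ => ?_
    show pl (EW k g C.cls) (sgl i 1) = _
    rw [pl_sgl]
    simp
  rw [h4, h5] at h3
  push_cast at h3
  linear_combination (norm := module) -h3

/-- the trivial relations vanish -/
lemma T_zero [CharZero F] (C : Cert) {n : ℕ} (hn : C.n = n) {G : Fin n → F} (hG : ∀ i, G i ≠ 0)
    (h1 : C.chk1 = true) (h2 : ∀ c < C.cls.length, C.chk2 c = true) (h5 : C.chk5 = true)
    (hk : ∀ x ∈ (List.ofFn G).drop C.r, ∃ c : k, x = algebraMap k F c)
    (H : Sols (List.ofFn G) C.cls) :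
    ∀ e ∈ (C.T.map Prod.snd).map (pl (EB C k (List.ofFn G))), e = 0 := by
  intro e he
  rw [List.map_map, List.mem_map] at he
  obtain ⟨T, hT, rfl⟩ := he
  have hg : ∀ x ∈ List.ofFn G, x ≠ 0 := by
    intro x hx
    rw [List.mem_ofFn] at hx
    obtain ⟨i, rfl⟩ := hx
    exact hG i
  unfold Cert.chk5 at h5
  rw [List.all_eq_true] at h5
  have h6 := h5 T hT
  simp only [Bool.and_eq_true, decide_eq_true_eq] at h6
  obtain ⟨⟨h7, h8⟩, h9⟩ := h6
  set a := (if T.1.2 then (C.cl T.1.1).2.2 else (C.cl T.1.1).1.2) with ha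
  have h10 := pl_isZ (EB C k (List.ofFn G)) h9
  rw [pl_axpy] at h10
  have h11 : pl (EB C k (List.ofFn G)) T.2 =
      pl (EB C k (List.ofFn G)) (outer (C.rho.getD T.1.1 default).2.2 a) := by
    push_cast at h10
    linear_combination (norm := module) -h10
  show pl (EB C k (List.ofFn G)) T.2 = 0
  rw [h11]
  unfold EB
  rw [pl_outer _ _ _ _ (by rw [h8, hn]; simp)]
  rw [← (rho_spec C h1 hg hk H (h2 _ h7)).2, LinearMap.smul_apply, EW_getD h7]
  have hS := H.getD h7
  set f := ev (List.ofFn G) (C.cls.getD T.1.1 default).1 with hf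
  have f0 : f ≠ 0 := ev_ne hg _
  have f1 : f ≠ 1 := by
    intro h
    apply ev_ne hg (C.cls.getD T.1.1 default).2
    linear_combination hS - h
  have z : TT F k (sy f) (pl ((List.ofFn G).map lg) a) = 0 := by
    rw [TT_apply]
    by_cases hb : T.1.2 = true
    · have e1 : pl ((List.ofFn G).map lg) a = lg (1 - f) := by
        have e2 : (1 - f) = ev (List.ofFn G) (C.cls.getD T.1.1 default).2 := by
          linear_combination -hS
        rw [e2, lg_ev hg, ha, if_pos hb]
        rfl
      rw [e1, hk_compl f0 f1, map_zero]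
    · have e1 : pl ((List.ofFn G).map lg) a = lg f := by
        rw [hf, lg_ev hg, ha, if_neg hb]
        rfl
      rw [e1, hk_self f0 f1, map_zero]
  rw [z, smul_zero]

end Main

end Pool.Agent.KC72
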