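import Pool.Agent.Lib_helper72.KC.W

/-!
# Closed elements from a certificate: solutions which are combinations of the classes
-/

set_option autoImplicit false
set_option linter.unusedSectionVars false
set_option linter.unusedVariables false

open scoped TensorProduct

namespace Pool.Agent.KC72

open TN MK4

section

variable {k : Type*} [Field k] {F : Type*} [Field F] [Algebra k F]

variable (k F) in
/-- the symbols of the constants -/
noncomputable def SC : Submodule ℚ (B2 F) := Submodule.span ℚ (Set.range fun c : k => sy (algebraMap k F c))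

lemma hk_SC {a : B2 F} (ha : a ∈ SC k F) (u : FT F) : hk a u ∈ KC k F := by
  induction ha using Submodule.span_induction with
  | mem a ha =>
    obtain ⟨c, rfl⟩ := ha
    exact Submodule.subset_span ⟨c, u, rfl⟩
  | zero =>
    have : hk (0 : B2 F) u = 0 := by
      have := hk_smul_left (0 : ℚ) (0 : B2 F) u
      rwa [zero_smul, zero_smul] at this
    rw [this]; exact Submodule.zero_mem _
  | add a b _ _ ha hb => rw [hk_add_left]; exact Submodule.add_mem _ ha hb
  | smul q a _ ha => rw [hk_smul_left]; exact Submodule.smul_mem _ _ ha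

/-- elements of the span -/
lemma decompX [CharZero F] (U : F → Prop) {L : ℕ} (f : Fin L → F)
    (hU : ∀ h, U h → U (1 - h) → sy h ∈ SC k F ⊔ Submodule.span ℚ (Set.range fun i => sy (f i)))
    {z : HK F} (hz : z ∈ Submodule.span ℚ {z : HK F | ∃ (f : F) (u : FT F),
      U f ∧ U (1 - f) ∧ z = hk (sy f) u}) :
    ∃ (u : Fin L → FT F) (κ : HK F), κ ∈ KC k F ∧ z = ∑ i, hk (sy (f i)) (u i) + κ := by
  classical
  have zl : ∀ u : FT F, hk (0 : B2 F) u = 0 := by
    intro u
    have := hk_smul_left (0 : ℚ) (0 : B2 F) u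
    rwa [zero_smul, zero_smul] at this
  have single : ∀ (i : Fin L) (u : FT F),
      ∑ j, hk (sy (f j)) (if j = i then u else 0) = hk (sy (f i)) u := by
    intro i u
    rw [Finset.sum_eq_single i]
    · rw [if_pos rfl]
    · intro j _ hj; rw [if_neg hj, hk_zero_right]
    · intro h; exact absurd (Finset.mem_univ i) h
  have key : ∀ a ∈ Submodule.span ℚ (Set.range fun i => sy (f i)), ∀ u : FT F,
      ∃ v : Fin L → FT F, hk a u = ∑ i, hk (sy (f i)) (v i) := by
    intro a ha u
    induction ha using Submodule.span_induction with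
    | mem a ha =>
      obtain ⟨i, rfl⟩ := ha
      exact ⟨fun j => if j = i then u else 0, (single i u).symm⟩
    | zero => exact ⟨fun _ => 0, by simp [zl, hk_zero_right]⟩
    | add a b _ _ ha hb =>
      obtain ⟨v, hv⟩ := ha
      obtain ⟨w, hw⟩ := hb
      refine ⟨fun i => v i + w i, ?_⟩
      simp only [hk_add_left, hk_add_right, Finset.sum_add_distrib, hv, hw]
    | smul q a _ ha =>
      obtain ⟨v, hv⟩ := ha
      refine ⟨fun i => q • v i, ?_⟩
      simp only [hk_smul_left, hk_smul_right, ← Finset.smul_sum, hv]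
  induction hz using Submodule.span_induction with
  | mem z hz =>
    obtain ⟨h, u, h1, h2, rfl⟩ := hz
    obtain ⟨a, ha, b, hb, hab⟩ := Submodule.mem_sup.mp (hU h h1 h2)
    obtain ⟨v, hv⟩ := key b hb u
    refine ⟨v, hk a u, hk_SC ha u, ?_⟩
    rw [← hv, ← hab, hk_add_left, add_comm]
  | zero =>
    refine ⟨fun _ => 0, 0, Submodule.zero_mem _, ?_⟩
    simp [hk_zero_right]
  | add a b _ _ ha hb =>
    obtain ⟨u, κ, hκ, rfl⟩ := ha
    obtain ⟨u', κ', hκ', rfl⟩ := hb
    refine ⟨fun i => u i + u' i, κ + κ', Submodule.add_mem _ hκ hκ', ?_⟩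
    simp only [hk_add_right, Finset.sum_add_distrib]
    abel
  | smul q a _ ha =>
    obtain ⟨u, κ, hκ, rfl⟩ := ha
    refine ⟨fun i => q • u i, q • κ, Submodule.smul_mem _ _ hκ, ?_⟩
    simp only [hk_smul_right, ← Finset.smul_sum, smul_add]

/-- **closed elements from a certificate**, if all symbols are combinations of the classes -/
theorem closed_of_certX [CharZero F] (C : Cert) (hC : Ok C) {n r : ℕ} (hn : C.n = n)
    (hr : C.r = r) {cls : List (Mo × Mo)} (hcl : C.cls = cls) {G : Fin n → F}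
    (hG : ∀ i, G i ≠ 0) (hk : ∀ i : Fin n, r ≤ i.val → ∃ c : k, G i = algebraMap k F c)
    (hI : ∀ q : Fin n → ℚ, ∑ i, q i • lg (G i) ∈ V0 k F → ∀ i : Fin n, i.val < r → q i = 0)
    (hJ : LinearIndependent ℚ (fun i => lg (G i)))
    (H : Sols (List.ofFn G) cls) (U : F → Prop)
    (hU : ∀ h, U h → U (1 - h) → sy h ∈ SC k F ⊔
      Submodule.span ℚ {a : B2 F | ∃ p ∈ cls, a = sy (ev (List.ofFn G) p.1)})
    {z : HK F} (hz : z ∈ Submodule.span ℚ {z : HK F | ∃ (f : F) (u : FT F),
      U f ∧ U (1 - f) ∧ z = MK4.hk (sy f) u}) (hc : Closed z) :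
    ∃ β : ℚ, (KC k F).mkQ z = β • pl (EB C k (List.ofFn G)) C.xi := by
  subst hn hr hcl
  have hset : {a : B2 F | ∃ p ∈ C.cls, a = sy (ev (List.ofFn G) p.1)} ⊆
      Set.range fun i : Fin C.cls.length => sy (ev (List.ofFn G) (C.cls.get i).1) := by
    rintro a ⟨p, hp, rfl⟩
    obtain ⟨i, hi, rfl⟩ := List.getElem_of_mem hp
    exact ⟨⟨i, hi⟩, rfl⟩
  have hle : SC k F ⊔ Submodule.span ℚ {a : B2 F | ∃ p ∈ C.cls, a = sy (ev (List.ofFn G) p.1)} ≤
      SC k F ⊔ Submodule.span ℚ (Set.range fun i : Fin C.cls.length =>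
        sy (ev (List.ofFn G) (C.cls.get i).1)) := sup_le_sup_left (Submodule.span_mono hset) _
  obtain ⟨u, κ, hκ, rfl⟩ := decompX (k := k) U
    (fun i : Fin C.cls.length => ev (List.ofFn G) (C.cls.get i).1)
    (fun h h1 h2 => hle (hU h h1 h2)) hz
  have hk' : ∀ x ∈ (List.ofFn G).drop C.r, ∃ c : k, x = algebraMap k F c := by
    intro x hx
    rw [List.mem_drop_iff_getElem] at hx
    obtain ⟨i, hi, rfl⟩ := hx
    rw [List.getElem_ofFn]
    exact hk _ (by simp)
  obtain ⟨β, hβ⟩ := cert_main C hC hG hk' hI hJ H u hκ hc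
  refine ⟨β, ?_⟩
  rw [map_add, hβ, (show (KC k F).mkQ κ = 0 from (Submodule.Quotient.mk_eq_zero _).mpr hκ),
    add_zero]

end

end Pool.Agent.KC72
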