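import Pool.Agent.Lib_helper72.KC.B

/-!
# Closed elements from a certificate: five term relations
-/

set_option autoImplicit false
set_option linter.unusedSectionVars false
set_option linter.unusedVariables false

open scoped TensorProduct

namespace Pool.Agent.KC72

open TN MK4

/-- a five term relation between orbit elements `(class, index)`; `none` stands for constants -/
structure Rel where
  x : ℕ × ℕ
  y : ℕ × ℕ
  z : ℕ × ℕ
  u : Option (ℕ × ℕ)
  w : Option (ℕ × ℕ)

/-- the function -/
def oo (cls : List (Mo × Mo)) (p : ℕ × ℕ) : Mo :=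
  let c := cls.getD p.1 default
  orb6 c.1 c.2 p.2

/-- one minus the function -/
def co (cls : List (Mo × Mo)) (p : ℕ × ℕ) : Mo :=
  let c := cls.getD p.1 default
  orb6 c.1 c.2 (cm6 p.2)

/-- equality -/
def eqM (a b : Mo) : Bool := (a.1 == b.1) && isZ (axpy (-1) a.2 b.2)

/-- constants -/
def isC (r : ℕ) (a : Mo) : Bool := isZ (a.2.take r)

/-- an argument of a relation -/
def chkO (r : ℕ) (cls : List (Mo × Mo)) (p : Option (ℕ × ℕ)) (a : Mo) : Bool :=
  match p with
  | some p => decide (p.1 < cls.length) && eqM (oo cls p) a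
  | none => isC r a

/-- the check of a relation -/
def chkR (r : ℕ) (cls : List (Mo × Mo)) (R : Rel) : Bool :=
  decide (R.x.1 < cls.length) && decide (R.y.1 < cls.length) && decide (R.z.1 < cls.length) &&
    eqM (oo cls R.z) ((oo cls R.y).div (oo cls R.x)) &&
    chkO r cls R.w ((co cls R.x).div (co cls R.y)) &&
    chkO r cls R.u (((co cls R.x).div (co cls R.y)).mul (oo cls R.z))

/-- the coefficient vector of an argument -/
def ovec (s : ℤ) (p : ℕ × ℕ) : List ℤ := sgl p.1 (s * sg6 p.2)

/-- the coefficient vector of an optional argument -/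
def ovecO (s : ℤ) : Option (ℕ × ℕ) → List ℤ
  | some p => ovec s p
  | none => []

/-- the coefficient vector of a relation -/
def relv (R : Rel) : List ℤ :=
  axpy 1 (ovec 1 R.x) (axpy 1 (ovec (-1) R.y) (axpy 1 (ovec 1 R.z)
    (axpy 1 (ovecO (-1) R.u) (ovecO 1 R.w))))

section

variable {F : Type*} [Field F]

lemma evl_isZ (g : List F) {v : List ℤ} (h : isZ v = true) : evl g v = 1 := by
  induction v generalizing g with
  | nil => simp
  | cons x v ih =>
    cases g with
    | nil => simp
    | cons e g =>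
      simp only [isZ, List.all_cons, Bool.and_eq_true, decide_eq_true_eq] at h
      rw [evl_cons, ih g h.2, h.1]
      simp

lemma ev_eqM {g : List F} (hg : ∀ x ∈ g, x ≠ 0) {a b : Mo} (h : eqM a b = true) :
    ev g a = ev g b := by
  unfold eqM at h
  rw [Bool.and_eq_true, beq_iff_eq] at h
  have h1 := evl_isZ g h.2
  rw [evl_axpy hg] at h1
  have h2 := evl_ne hg a.2
  have h3 : evl g b.2 = evl g a.2 := by
    rw [zpow_neg, zpow_one] at h1
    field_simp at h1
    exact h1
  unfold ev
  rw [h.1, h3]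

variable {k : Type*} [Field k] [Algebra k F]

lemma evl_const {r : ℕ} {g : List F} (hk : ∀ x ∈ g.drop r, ∃ c : k, x = algebraMap k F c)
    {a : List ℤ} (h : isZ (a.take r) = true) : ∃ c : k, evl g a = algebraMap k F c := by
  induction r generalizing g a with
  | zero =>
    rw [List.drop_zero] at hk
    clear h
    induction g generalizing a with
    | nil => exact ⟨1, by simp⟩
    | cons e g ih =>
      cases a with
      | nil => exact ⟨1, by simp⟩
      | cons x a =>
        obtain ⟨c, hc⟩ := hk e (by simp)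
        obtain ⟨d, hd⟩ := ih (fun y hy => hk y (by simp [hy])) (a := a)
        exact ⟨c ^ x * d, by rw [evl_cons, hc, hd, map_mul, map_zpow₀]⟩
  | succ r ih =>
    cases g with
    | nil => exact ⟨1, by simp⟩
    | cons e g =>
      cases a with
      | nil => exact ⟨1, by simp⟩
      | cons x a =>
        simp only [List.take_succ_cons, isZ, List.all_cons, Bool.and_eq_true,
          decide_eq_true_eq] at h
        obtain ⟨c, hc⟩ := ih (g := g) (a := a) (by simpa using hk) h.2
        exact ⟨c, by rw [evl_cons, hc, h.1, zpow_zero, one_mul]⟩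

lemma ev_const {r : ℕ} {g : List F} (hk : ∀ x ∈ g.drop r, ∃ c : k, x = algebraMap k F c)
    {a : Mo} (h : isC r a = true) : ∃ c : k, ev g a = algebraMap k F c := by
  obtain ⟨c, hc⟩ := evl_const hk h
  unfold ev
  rw [hc]
  rcases a with ⟨_ | _, a⟩
  · exact ⟨c, by simp⟩
  · exact ⟨-c, by simp⟩

variable (k F) in
/-- `x ⊗ u` modulo constants -/
noncomputable def TT : B2 F →ₗ[ℚ] FT F →ₗ[ℚ] (HK F ⧸ KC k F) :=
  LinearMap.mk₂ ℚ (fun x u => (KC k F).mkQ (hk x u))
    (fun a b u => by rw [hk_add_left, map_add])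
    (fun c a u => by rw [hk_smul_left, map_smul])
    (fun a u v => by rw [hk_add_right, map_add])
    (fun c a u => by rw [hk_smul_right, map_smul])

lemma TT_apply (x : B2 F) (u : FT F) : TT F k x u = (KC k F).mkQ (hk x u) := rfl

lemma TT_const (c : k) : TT F k (sy (algebraMap k F c)) = 0 := by
  ext u
  rw [TT_apply, LinearMap.zero_apply, Submodule.mkQ_apply, Submodule.Quotient.mk_eq_zero]
  exact Submodule.subset_span ⟨c, u, rfl⟩

variable (k) in
/-- the symbols of the classes -/
noncomputable def EW (g : List F) (cls : List (Mo × Mo)) :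
    List (FT F →ₗ[ℚ] (HK F ⧸ KC k F)) :=
  cls.map (fun p => TT F k (sy (ev g p.1)))

lemma EW_getD {g : List F} {cls : List (Mo × Mo)} {c : ℕ} (hc : c < cls.length) :
    (EW k g cls).getD c 0 = TT F k (sy (ev g (cls.getD c default).1)) := by
  unfold EW
  rw [List.getD_eq_getElem?_getD, List.getD_eq_getElem?_getD, List.getElem?_map,
    List.getElem?_eq_getElem hc]
  simp

/-- the classes are solutions -/
def Sols (g : List F) (cls : List (Mo × Mo)) : Prop := ∀ p ∈ cls, ev g p.1 + ev g p.2 = 1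

lemma Sols.getD {g : List F} {cls : List (Mo × Mo)} (H : Sols g cls) {c : ℕ}
    (hc : c < cls.length) :
    ev g (cls.getD c default).1 + ev g (cls.getD c default).2 = 1 := by
  rw [List.getD_eq_getElem?_getD, List.getElem?_eq_getElem hc, Option.getD_some]
  exact H _ (List.getElem_mem hc)

lemma oo_co {g : List F} (hg : ∀ x ∈ g, x ≠ 0) {cls : List (Mo × Mo)} (H : Sols g cls)
    {p : ℕ × ℕ} (hp : p.1 < cls.length) : ev g (oo cls p) + ev g (co cls p) = 1 :=
  orb6_add hg (H.getD hp) p.2

lemma oo_sy [CharZero F] {g : List F} (hg : ∀ x ∈ g, x ≠ 0) {cls : List (Mo × Mo)}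
    (H : Sols g cls) {p : ℕ × ℕ} (hp : p.1 < cls.length) (s : ℤ) :
    (s : ℚ) • TT F k (sy (ev g (oo cls p))) = pl (EW k g cls) (ovec s p) := by
  unfold ovec
  rw [pl_sgl, EW_getD hp]
  have h1 : sy (ev g (oo cls p)) = (sg6 p.2 : ℚ) • sy (ev g (cls.getD p.1 default).1) :=
    orb6_sy hg (H.getD hp) p.2
  rw [h1, map_smul, smul_smul]
  push_cast
  rfl

lemma ovecO_sy [CharZero F] {r : ℕ} {g : List F} (hg : ∀ x ∈ g, x ≠ 0)
    (hk : ∀ x ∈ g.drop r, ∃ c : k, x = algebraMap k F c) {cls : List (Mo × Mo)}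
    (H : Sols g cls) {p : Option (ℕ × ℕ)} {a : Mo} (h : chkO r cls p a = true) (s : ℤ) :
    (s : ℚ) • TT F k (sy (ev g a)) = pl (EW k g cls) (ovecO s p) := by
  cases p with
  | some p =>
    simp only [chkO, Bool.and_eq_true, decide_eq_true_eq] at h
    rw [← ev_eqM hg h.2]
    exact oo_sy hg H h.1 s
  | none =>
    obtain ⟨c, hc⟩ := ev_const hk h
    rw [hc, TT_const, smul_zero]
    simp [ovecO]

/-- **a checked five term relation** -/
theorem relv_zero [CharZero F] {r : ℕ} {g : List F} (hg : ∀ x ∈ g, x ≠ 0)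
    (hk : ∀ x ∈ g.drop r, ∃ c : k, x = algebraMap k F c) {cls : List (Mo × Mo)}
    (H : Sols g cls) {R : Rel} (h : chkR r cls R = true) :
    pl (EW k g cls) (relv R) = 0 := by
  unfold chkR at h
  simp only [Bool.and_eq_true, decide_eq_true_eq] at h
  obtain ⟨⟨⟨⟨⟨hx, hy⟩, hz⟩, ez⟩, ew⟩, eu⟩ := h
  have X := oo_co hg H hx
  have Y := oo_co hg H hy
  have Z := oo_co hg H hz
  have x0 := ev_ne hg (oo cls R.x)
  have y0 := ev_ne hg (oo cls R.y)
  have z0 := ev_ne hg (oo cls R.z)
  have x1 := ev_ne hg (co cls R.x)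
  have y1 := ev_ne hg (co cls R.y)
  have z1 := ev_ne hg (co cls R.z)
  have eqz := ev_eqM hg ez
  rw [ev_div hg] at eqz
  set x := ev g (oo cls R.x) with hx'
  set y := ev g (oo cls R.y) with hy'
  set z := ev g (oo cls R.z) with hz'
  have cx : ev g (co cls R.x) = 1 - x := by linear_combination X
  have cy : ev g (co cls R.y) = 1 - y := by linear_combination Y
  have cz : ev g (co cls R.z) = 1 - z := by linear_combination Z
  rw [cx] at x1
  rw [cy] at y1
  rw [cz] at z1
  have nx : x ≠ 1 := fun h => x1 (by rw [h, sub_self])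
  have ny : y ≠ 1 := fun h => y1 (by rw [h, sub_self])
  have nxy : x ≠ y := by
    intro h
    apply z1
    rw [eqz, ← h, div_self x0, sub_self]
  have f5 : sy x - sy y + sy (y / x) - sy ((1 - x⁻¹) / (1 - y⁻¹)) + sy ((1 - x) / (1 - y)) = 0 :=
    K4M.five x0 nx y0 ny nxy
  have hw : (1 - x) / (1 - y) = ev g ((co cls R.x).div (co cls R.y)) := by
    rw [ev_div hg, cx, cy]
  have hu : (1 - x⁻¹) / (1 - y⁻¹) =
      ev g (((co cls R.x).div (co cls R.y)).mul (oo cls R.z)) := by
    rw [ev_mul hg, ev_div hg, cx, cy, ← hz', eqz]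
    have e1 : (1 - x⁻¹) = -(1 - x) / x := by field_simp; ring
    have e2 : (1 - y⁻¹) = -(1 - y) / y := by field_simp; ring
    rw [e1, e2]
    have y1' : -(1 - y) ≠ 0 := neg_ne_zero.mpr y1
    field_simp
  rw [hw, hu, ← eqz] at f5
  have f6 := congrArg (TT F k) f5
  rw [map_add, map_sub, map_add, map_sub, map_zero] at f6
  unfold relv
  rw [pl_axpy, pl_axpy, pl_axpy, pl_axpy, ← oo_sy hg H hx 1, ← oo_sy hg H hy (-1),
    ← oo_sy hg H hz 1, ← ovecO_sy hg hk H eu (-1), ← ovecO_sy hg hk H ew 1]
  push_cast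
  linear_combination (norm := module) f6

end

end Pool.Agent.KC72
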