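import Pool.Agent.Lib_helper72.KC.P1

/-!
# Functions of degree three in the pre-Bloch group
-/

set_option autoImplicit false
set_option linter.unusedSectionVars false
set_option linter.unusedVariables false

open scoped TensorProduct

namespace Pool.Agent.KC72

open TN MK4

section

variable {F : Type*} [Field F] [CharZero F]

/-- the finite point -/
def pt (a : F) : F × F := (a, 1)

variable (F) in
/-- the infinite point -/
def po : F × F := (1, 0)

lemma br_pt (a b : F) : br (pt a) (pt b) = a - b := by unfold br pt; ring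
lemma br_pto (a : F) : br (pt a) (po F) = -1 := by unfold br pt po; ring
lemma br_opt (a : F) : br (po F) (pt a) = 1 := by unfold br pt po; ring

/-- an affine function with two zeros -/
lemma aff {A B C p c : F} {D : F → F} (hD : ∀ p, D p = A * p + B) (h1 : D (c + 1) = 0)
    (h2 : D (c + 2) = 0) : D p = 0 := by
  rw [hD] at h1 h2 ⊢
  have hA : A = 0 := by linear_combination h2 - h1
  rw [hA] at h1 ⊢
  linear_combination h1

/-- the symbols of the elements of a subfield -/
noncomputable def SK (K : Subfield F) : Submodule ℚ (B2 F) := Submodule.span ℚ {a | ∃ c ∈ K, a = sy c}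

/-- **functions of degree three** with split fibres over `0, 1` and a double pole -/
theorem sy_cubic (K : Subfield F) {x a1 a2 a3 b c1 c2 c3 κ : F} (hx : x ∉ K) (ka1 : a1 ∈ K)
    (ka2 : a2 ∈ K) (ka3 : a3 ∈ K) (kb : b ∈ K) (kc1 : c1 ∈ K) (kc2 : c2 ∈ K) (kc3 : c3 ∈ K)
    (kκ : κ ∈ K)
    (H : ∀ p, κ * (p - a1) * (p - a2) * (p - a3) - κ * (p - c1) * (p - c2) * (p - c3) =
      (p - b) ^ 2)
    (ab1 : a1 ≠ b) (ab2 : a2 ≠ b) (ab3 : a3 ≠ b) (cb1 : c1 ≠ b) (cb2 : c2 ≠ b) (cb3 : c3 ≠ b)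
    (aa : a2 ≠ a3) :
    sy (κ * (x - a1) * (x - a2) * (x - a3) / (x - b) ^ 2) -
      (SS (pt x) (pt a1) (pt b) (pt c1) + SS (pt x) (pt a2) (pt b) (pt c1) +
       SS (pt x) (pt a3) (po F) (pt c1) - SS (pt x) (pt a2) (pt c2) (pt b) -
       SS (pt x) (pt a3) (pt c3) (pt b) - SS (pt x) (pt a1) (pt c2) (pt b) +
       SS (pt x) (pt a1) (po F) (pt c3) + SS (pt x) (pt a3) (pt b) (pt c3) +
       SS (pt x) (pt a3) (pt c3) (pt a2) + SS (pt x) (pt a3) (pt a2) (po F) +
       SS (pt x) (pt a3) (po F) (pt c2)) ∈ SK K := by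
  have xne : ∀ c ∈ K, x - c ≠ 0 := by
    intro c hc h
    exact hx (by rw [sub_eq_zero.mp h]; exact hc)
  have s := fun {p q : F} (h : p ≠ q) => sub_ne_zero.mpr h
  -- the values of `H`
  have Ha : ∀ a, (κ * (a - a1) * (a - a2) * (a - a3) = 0) → a ≠ b →
      κ * (a - c1) * (a - c2) * (a - c3) ≠ 0 := by
    intro a h h' h2
    have := H a
    rw [h, h2, sub_zero] at this
    exact pow_ne_zero 2 (s h') this.symm
  have Na1 := Ha a1 (by ring) ab1
  have Na2 := Ha a2 (by ring) ab2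
  have Na3 := Ha a3 (by ring) ab3
  have k0 : κ ≠ 0 := fun h => Na1 (by rw [h]; ring)
  have a1c1 : a1 - c1 ≠ 0 := fun h => Na1 (by rw [h]; ring)
  have a1c2 : a1 - c2 ≠ 0 := fun h => Na1 (by rw [h]; ring)
  have a1c3 : a1 - c3 ≠ 0 := fun h => Na1 (by rw [h]; ring)
  have a2c1 : a2 - c1 ≠ 0 := fun h => Na2 (by rw [h]; ring)
  have a2c2 : a2 - c2 ≠ 0 := fun h => Na2 (by rw [h]; ring)
  have a2c3 : a2 - c3 ≠ 0 := fun h => Na2 (by rw [h]; ring)
  have a3c1 : a3 - c1 ≠ 0 := fun h => Na3 (by rw [h]; ring)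
  have a3c2 : a3 - c2 ≠ 0 := fun h => Na3 (by rw [h]; ring)
  have a3c3 : a3 - c3 ≠ 0 := fun h => Na3 (by rw [h]; ring)
  have n := fun {p q : F} (h : p - q ≠ 0) => (by
    intro h'
    exact h (by linear_combination -h') : q - p ≠ 0)
  have c1b := s cb1
  have c2b := s cb2
  have c3b := s cb3
  obtain ⟨μ, hμ⟩ : ∃ μ, μ = κ * (c1 - a1) / (c1 - b) := ⟨_, rfl⟩
  have μ0 : μ ≠ 0 := by rw [hμ]; exact div_ne_zero (mul_ne_zero k0 (n a1c1)) c1b
  have hμ' : μ * (c1 - b) = κ * (c1 - a1) := by rw [hμ]; exact div_mul_cancel₀ _ c1b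
  obtain ⟨ν, hν⟩ : ∃ ν, ν = (a1 - b) / (c1 - b) := ⟨_, rfl⟩
  have ν0 : ν ≠ 0 := by rw [hν]; exact div_ne_zero (s ab1) c1b
  have hν' : ν * (c1 - b) = a1 - b := by rw [hν]; exact div_mul_cancel₀ _ c1b
  obtain ⟨σ, hσ⟩ : ∃ σ, σ = (a1 - b) / (κ * (c1 - a1)) := ⟨_, rfl⟩
  have σ0 : σ ≠ 0 := by rw [hσ]; exact div_ne_zero (s ab1) (mul_ne_zero k0 (n a1c1))
  have hσ' : σ * (κ * (c1 - a1)) = a1 - b := by
    rw [hσ]; exact div_mul_cancel₀ _ (mul_ne_zero k0 (n a1c1))
  obtain ⟨q, hq⟩ : ∃ q, q = μ⁻¹ + a2 + a3 - c1 := ⟨_, rfl⟩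
  have kμ : μ ∈ K := by
    rw [hμ]; exact div_mem (mul_mem kκ (sub_mem kc1 ka1)) (sub_mem kc1 kb)
  have kq : q ∈ K := by
    rw [hq]; exact sub_mem (add_mem (add_mem (inv_mem kμ) ka2) ka3) kc1
  have hμq : μ * q = 1 + μ * (a2 + a3 - c1) := by
    rw [hq]; field_simp; ring
  have hc1 : μ * (c1 - a2) * (c1 - a3) = c1 - b := by
    have h := H c1
    have h2 : (c1 - b) * (μ * (c1 - a2) * (c1 - a3) - (c1 - b)) = 0 := by
      linear_combination h + (c1 - a2) * (c1 - a3) * hμ'
    rcases mul_eq_zero.mp h2 with h3 | h3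
    · exact absurd h3 c1b
    · linear_combination h3
  have ν1 : κ * (1 - ν) = μ := by
    have h2 : (c1 - b) * (κ * (1 - ν) - μ) = 0 := by linear_combination -κ * hν' - hμ'
    rcases mul_eq_zero.mp h2 with h3 | h3
    · exact absurd h3 c1b
    · linear_combination h3
  have Hq : ∀ p, (p - b) - μ * (p - a2) * (p - a3) = -μ * (p - c1) * (p - q) := by
    intro p
    linear_combination (c1 - p) * hμq - hc1
  have HW1 : ∀ p, (p - c2) * (p - c3) - ν * (p - a2) * (p - a3) = (1 - ν) * (p - q) * (p - b) := by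
    have key : ∀ p, p - c1 ≠ 0 →
        (p - c2) * (p - c3) - ν * (p - a2) * (p - a3) - (1 - ν) * (p - q) * (p - b) = 0 := by
      intro p hp
      have h2 : κ * (p - c1) * ((p - c2) * (p - c3) - ν * (p - a2) * (p - a3) -
          (1 - ν) * (p - q) * (p - b)) = 0 := by
        linear_combination -(H p) - (p - b) * (Hq p) + (-(p - c1) * (p - q) * (p - b) +
          (p - a2) * (p - a3) * (p - b)) * ν1 + (p - a2) * (p - a3) * κ * hν'
      rcases mul_eq_zero.mp h2 with h3 | h3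
      · exact absurd h3 (mul_ne_zero k0 hp)
      · exact h3
    intro p
    have := aff (p := p) (c := c1) (C := 0)
      (A := -(c2 + c3) + ν * (a2 + a3) + (1 - ν) * (q + b))
      (B := c2 * c3 - ν * a2 * a3 - (1 - ν) * q * b)
      (D := fun p => (p - c2) * (p - c3) - ν * (p - a2) * (p - a3) - (1 - ν) * (p - q) * (p - b))
      (fun p => by ring) (key _ (by rw [add_sub_cancel_left]; exact one_ne_zero))
      (key _ (by rw [add_sub_cancel_left]; exact two_ne_zero))
    linear_combination this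
  have σ1 : ∀ p, -μ * (p - b) + κ * (p - a1) = μ * κ * σ * (p - c1) := by
    intro p
    have h2 : (c1 - b) * (-μ * (p - b) + κ * (p - a1) - μ * κ * σ * (p - c1)) = 0 := by
      linear_combination (-(p - b) - κ * σ * (p - c1)) * hμ' - κ * (p - c1) * hσ'
    rcases mul_eq_zero.mp h2 with h3 | h3
    · exact absurd h3 c1b
    · linear_combination h3
  have HW2 : ∀ p, (p - c2) * (p - c3) - (p - a1) * (p - q) = σ * (p - b) := by
    have key : ∀ p, p - c1 ≠ 0 →
        (p - c2) * (p - c3) - (p - a1) * (p - q) - σ * (p - b) = 0 := by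
      intro p hp
      have h2 : μ * κ * (p - c1) * ((p - c2) * (p - c3) - (p - a1) * (p - q) -
          σ * (p - b)) = 0 := by
        linear_combination -μ * (H p) - κ * (p - a1) * (Hq p) + (p - b) * σ1 p
      rcases mul_eq_zero.mp h2 with h3 | h3
      · exact absurd h3 (mul_ne_zero (mul_ne_zero μ0 k0) hp)
      · exact h3
    intro p
    have := aff (p := p) (c := c1) (C := 0)
      (A := -(c2 + c3) + (a1 + q) - σ)
      (B := c2 * c3 - a1 * q + σ * b)
      (D := fun p => (p - c2) * (p - c3) - (p - a1) * (p - q) - σ * (p - b))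
      (fun p => by ring) (key _ (by rw [add_sub_cancel_left]; exact one_ne_zero))
      (key _ (by rw [add_sub_cancel_left]; exact two_ne_zero))
    linear_combination this
  -- the auxiliary point
  have qa2 : a2 - q ≠ 0 := by
    intro h
    have := Hq a2
    rw [h] at this
    exact s ab2 (by linear_combination this)
  have qa3 : a3 - q ≠ 0 := by
    intro h
    have := Hq a3
    rw [h] at this
    exact s ab3 (by linear_combination this)
  have qb : b - q ≠ 0 := by
    intro h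
    have := Hq b
    rw [h] at this
    have h2 : μ * (b - a2) * (b - a3) = 0 := by linear_combination -this
    exact mul_ne_zero (mul_ne_zero μ0 (s ab2.symm)) (s ab3.symm) h2
  have qc2 : c2 - q ≠ 0 := by
    intro h
    have := HW1 c2
    rw [h] at this
    have h2 : ν * (c2 - a2) * (c2 - a3) = 0 := by linear_combination -this
    exact mul_ne_zero (mul_ne_zero ν0 (n a2c2)) (n a3c2) h2
  have qc3 : c3 - q ≠ 0 := by
    intro h
    have := HW1 c3
    rw [h] at this
    have h2 : ν * (c3 - a2) * (c3 - a3) = 0 := by linear_combination -this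
    exact mul_ne_zero (mul_ne_zero ν0 (n a2c3)) (n a3c3) h2
  have xa1 := xne a1 ka1
  have xa2 := xne a2 ka2
  have xa3 := xne a3 ka3
  have xb := xne b kb
  have xc1 := xne c1 kc1
  have xc2 := xne c2 kc2
  have xc3 := xne c3 kc3
  have xq := xne q kq
  -- the five term relation
  obtain ⟨X, hX⟩ : ∃ X, X = cr (pt x) (pt a3) (po F) (pt c1) * cr (pt x) (pt a2) (pt b) (pt c1) :=
    ⟨_, rfl⟩
  obtain ⟨W1, hW1⟩ : ∃ X, X = cr (pt x) (pt a3) (pt c3) (pt b) * cr (pt x) (pt a2) (pt c2) (pt b) :=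
    ⟨_, rfl⟩
  obtain ⟨W2, hW2⟩ : ∃ X, X = cr (pt x) (pt q) (pt c3) (pt b) * cr (pt x) (pt a1) (pt c2) (pt b) :=
    ⟨_, rfl⟩
  have eX : X = μ * (x - a2) * (x - a3) / (x - b) := by
    rw [hX]
    unfold cr
    simp only [br_pt, br_pto, br_opt]
    have := n a2c1
    have := n a3c1
    rw [eq_div_iff xb]
    field_simp
    first | linear_combination hc1 | linear_combination -hc1
  have eY : cr (pt x) (pt a1) (pt b) (pt c1) = (x - a1) * (c1 - b) / ((x - b) * (c1 - a1)) := by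
    unfold cr
    simp only [br_pt, br_pto, br_opt]
  have eW1 : W1 = ν * (x - a2) * (x - a3) / ((x - c2) * (x - c3)) := by
    rw [hW1]
    unfold cr
    simp only [br_pt, br_pto, br_opt]
    have h := HW1 b
    have h2 : (b - c2) * (b - c3) = ν * (b - a2) * (b - a3) := by linear_combination h
    have := s ab2.symm
    have := s ab3.symm
    field_simp
    linear_combination h2
  have eW2 : W2 = (x - a1) * (x - q) / ((x - c2) * (x - c3)) := by
    rw [hW2]
    unfold cr
    simp only [br_pt, br_pto, br_opt]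
    have h := HW2 b
    have h2 : (b - c2) * (b - c3) = (b - a1) * (b - q) := by linear_combination h
    have := s ab1.symm
    field_simp
    linear_combination h2
  have e1X : 1 - X = -μ * (x - c1) * (x - q) / (x - b) := by
    rw [eX, ← Hq x]
    field_simp
  have e1Y : 1 - cr (pt x) (pt a1) (pt b) (pt c1) =
      (x - c1) * (a1 - b) / ((x - b) * (a1 - c1)) := by
    rw [cr_compl (by rw [br_pt]; exact xb) (by rw [br_pt]; exact n a1c1)]
    unfold cr
    simp only [br_pt]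
  have eXY : X * cr (pt x) (pt a1) (pt b) (pt c1) =
      κ * (x - a1) * (x - a2) * (x - a3) / (x - b) ^ 2 := by
    rw [eX, eY]
    have := n a1c1
    field_simp
    linear_combination hμ'
  have e1XY : 1 - X * cr (pt x) (pt a1) (pt b) (pt c1) =
      -κ * (x - c1) * (x - c2) * (x - c3) / (x - b) ^ 2 := by
    rw [eXY, eq_div_iff (pow_ne_zero 2 xb), sub_mul, div_mul_cancel₀ _ (pow_ne_zero 2 xb)]
    linear_combination -(H x)
  have X0 : X ≠ 0 := by
    rw [eX]; exact div_ne_zero (mul_ne_zero (mul_ne_zero μ0 xa2) xa3) xb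
  have Y0 : cr (pt x) (pt a1) (pt b) (pt c1) ≠ 0 := by
    rw [eY]; exact div_ne_zero (mul_ne_zero xa1 c1b) (mul_ne_zero xb (n a1c1))
  have X1 : X ≠ 1 := by
    intro h
    rw [h, sub_self] at e1X
    exact div_ne_zero (mul_ne_zero (mul_ne_zero (neg_ne_zero.mpr μ0) xc1) xq) xb e1X.symm
  have Y1 : cr (pt x) (pt a1) (pt b) (pt c1) ≠ 1 := by
    intro h
    rw [h, sub_self] at e1Y
    exact div_ne_zero (mul_ne_zero xc1 (s ab1)) (mul_ne_zero xb a1c1) e1Y.symm
  have XY1 : X * cr (pt x) (pt a1) (pt b) (pt c1) ≠ 1 := by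
    intro h
    rw [h, sub_self] at e1XY
    exact div_ne_zero (mul_ne_zero (mul_ne_zero (mul_ne_zero (neg_ne_zero.mpr k0) xc1) xc2) xc3)
      (pow_ne_zero 2 xb) e1XY.symm
  have FT := ft (W1 := W1) (W2 := W2) X0 X1 Y0 Y1 XY1
    (by
      rw [e1XY, e1Y, eX, eW1]
      field_simp
      linear_combination -ν * hμ' + μ * hν')
    (by
      rw [e1XY, e1X, eY, eW2]
      have := n a1c1
      field_simp
      linear_combination hμ')
  rw [eXY] at FT
  have c3a3 := n a3c3
  have dX := D2 (x := pt x) (u1 := pt a2) (u2 := pt a3) (v1 := pt b) (v2 := po F) (w1 := pt c1)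
    (w2 := pt q) (l := c1 - b) (by rw [br_pt]; exact xa2) (by rw [br_pt]; exact xa3)
    (by rw [br_pt]; exact xb) (by rw [br_pto]; exact neg_ne_zero.mpr one_ne_zero)
    (by rw [br_pt]; exact xc1) (by rw [br_pt]; exact xq) c1b (by rw [br_pt]; exact n a2c1)
    (by rw [br_pt]; exact n a3c1) (by rw [br_pt]; exact c1b)
    (by rw [br_pto]; exact neg_ne_zero.mpr one_ne_zero) (by rw [br_pt]; exact s ab2.symm)
    (by rw [br_pt]; exact s ab3.symm) (by rw [br_opt]; exact one_ne_zero)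
    (by rw [br_opt]; exact one_ne_zero)
    (by
      simp only [br_pt, br_pto, br_opt]
      linear_combination -(c1 - a2) * (c1 - a3) * (Hq x) +
        (-(x - a2) * (x - a3) + (x - c1) * (x - q)) * hc1)
    (by
      simp only [br_pt, br_pto, br_opt]
      linear_combination -(c1 - a2) * (c1 - a3) * (Hq b) +
        (-(b - a2) * (b - a3) + (b - c1) * (b - q)) * hc1)
    (by
      simp only [br_pt, br_pto, br_opt]
      ring)
  have dW1 := D2 (x := pt x) (u1 := pt a2) (u2 := pt a3) (v1 := pt c2) (v2 := pt c3) (w1 := pt b)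
    (w2 := pt q) (l := (b - a2) * (b - a3) * (1 - ν)) (by rw [br_pt]; exact xa2)
    (by rw [br_pt]; exact xa3)
    (by rw [br_pt]; exact xc2) (by rw [br_pt]; exact xc3)
    (by rw [br_pt]; exact xb) (by rw [br_pt]; exact xq)
    (mul_ne_zero (mul_ne_zero (s ab2.symm) (s ab3.symm)) (fun h => μ0 (by rw [← ν1, h, mul_zero])))
    (by rw [br_pt]; exact s ab2.symm)
    (by rw [br_pt]; exact s ab3.symm) (by rw [br_pt]; exact n c2b)
    (by rw [br_pt]; exact n c3b) (by rw [br_pt]; exact n a2c2)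
    (by rw [br_pt]; exact n a3c2) (by rw [br_pt]; exact n a2c3)
    (by rw [br_pt]; exact n a3c3)
    (by
      simp only [br_pt, br_pto, br_opt]
      linear_combination (b - a2) * (b - a3) * (HW1 x) - (x - a2) * (x - a3) * (HW1 b))
    (by
      simp only [br_pt, br_pto, br_opt]
      linear_combination (b - a2) * (b - a3) * (HW1 c2) - (c2 - a2) * (c2 - a3) * (HW1 b))
    (by
      simp only [br_pt, br_pto, br_opt]
      linear_combination (b - a2) * (b - a3) * (HW1 c3) - (c3 - a2) * (c3 - a3) * (HW1 b))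
  have dW2 := D2 (x := pt x) (u1 := pt a1) (u2 := pt q) (v1 := pt c2) (v2 := pt c3) (w1 := pt b)
    (w2 := po F) (l := -(b - a1) * (b - q) * σ) (by rw [br_pt]; exact xa1)
    (by rw [br_pt]; exact xq)
    (by rw [br_pt]; exact xc2) (by rw [br_pt]; exact xc3)
    (by rw [br_pt]; exact xb) (by rw [br_pto]; exact neg_ne_zero.mpr one_ne_zero)
    (mul_ne_zero (mul_ne_zero (neg_ne_zero.mpr (s ab1.symm)) qb) σ0)
    (by rw [br_pt]; exact s ab1.symm)
    (by rw [br_pt]; exact qb) (by rw [br_pt]; exact n c2b)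
    (by rw [br_pt]; exact n c3b) (by rw [br_pt]; exact n a1c2)
    (by rw [br_pt]; exact qc2) (by rw [br_pt]; exact n a1c3)
    (by rw [br_pt]; exact qc3)
    (by
      simp only [br_pt, br_pto, br_opt]
      linear_combination (b - a1) * (b - q) * (HW2 x) - (x - a1) * (x - q) * (HW2 b))
    (by
      simp only [br_pt, br_pto, br_opt]
      linear_combination (b - a1) * (b - q) * (HW2 c2) - (c2 - a1) * (c2 - q) * (HW2 b))
    (by
      simp only [br_pt, br_pto, br_opt]
      linear_combination (b - a1) * (b - q) * (HW2 c3) - (c3 - a1) * (c3 - q) * (HW2 b))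
  rw [← hX] at dX
  rw [← hW1] at dW1
  rw [← hW2] at dW2
  have b0 : ∀ {p r : F}, p - r ≠ 0 → br (pt p) (pt r) ≠ 0 := fun h => by rw [br_pt]; exact h
  have p0 : ∀ p : F, br (pt p) (po F) ≠ 0 := fun p => by
    rw [br_pto]; exact neg_ne_zero.mpr one_ne_zero
  have o0 : ∀ p : F, br (po F) (pt p) ≠ 0 := fun p => by rw [br_opt]; exact one_ne_zero
  have f1 := five_pt (x := pt x) (u := pt a3) (v := pt b) (w := pt c3) (q := pt q) (b0 xa3) (b0 xb)
    (b0 xc3) (b0 xq) (b0 (s ab3)) (b0 a3c3) (b0 (n c3b)) (b0 (n qa3)) (b0 (n qb)) (b0 (n qc3))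
  have f2 := five_pt (x := pt x) (u := pt a3) (v := pt c3) (w := pt a2) (q := pt q) (b0 xa3)
    (b0 xc3) (b0 xa2) (b0 xq) (b0 a3c3) (b0 (s aa.symm)) (b0 (n a2c3)) (b0 (n qa3)) (b0 (n qc3))
    (b0 (n qa2))
  have f3 := five_pt (x := pt x) (u := pt a3) (v := pt a2) (w := po F) (q := pt q) (b0 xa3)
    (b0 xa2) (p0 _) (b0 xq) (b0 (s aa.symm)) (p0 _) (p0 _) (b0 (n qa3)) (b0 (n qa2)) (p0 _)
  have f4 := five_pt (x := pt x) (u := pt a3) (v := po F) (w := pt c2) (q := pt q) (b0 xa3)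
    (p0 _) (b0 xc2) (b0 xq) (p0 _) (b0 a3c2) (o0 _) (b0 (n qa3)) (p0 _) (b0 (n qc2))
  have r1 := SS_12 (pt x) (pt q) (pt a3) (pt b)
  have r2 := SS_12 (pt x) (pt q) (pt a2) (po F)
  have r3 := SS_12 (pt x) (pt q) (pt a3) (pt c2)
  have r3' := SS_23 (pt x) (pt q) (pt a3) (pt c2)
  have r4 := SS_12 (pt x) (pt q) (pt a2) (pt c3)
  have r4' := SS_23 (pt x) (pt q) (pt a2) (pt c3)
  have r5 := SS_23 (pt x) (pt q) (pt c3) (pt b)
  have r6 := SS_23 (pt x) (pt q) (pt a3) (pt c3)
  have r7 := SS_23 (pt x) (pt q) (pt a3) (pt a2)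
  have r8 := SS_23 (pt x) (pt q) (pt a3) (po F)
  have FT' : sy (κ * (x - a1) * (x - a2) * (x - a3) / (x - b) ^ 2) =
    sy X + SS (pt x) (pt a1) (pt b) (pt c1) - sy W1 - sy W2 := FT
  have cst : ∀ {u v w : F × F}, u.1 ∈ K → u.2 ∈ K → v.1 ∈ K → v.2 ∈ K → w.1 ∈ K → w.2 ∈ K →
      sy (br w v * br (pt q) u / (br w u * br (pt q) v)) ∈ SK K := by
    intro u v w u1 u2 v1 v2 w1 w2
    refine Submodule.subset_span ⟨_, ?_, rfl⟩
    have hb : ∀ {p r : F × F}, p.1 ∈ K → p.2 ∈ K → r.1 ∈ K → r.2 ∈ K → br p r ∈ K :=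
      fun h1 h2 h3 h4 => sub_mem (mul_mem h1 h4) (mul_mem h2 h3)
    exact div_mem (mul_mem (hb w1 w2 v1 v2) (hb kq K.one_mem u1 u2))
      (mul_mem (hb w1 w2 u1 u2) (hb kq K.one_mem v1 v2))
  have k1 := cst (u := pt a3) (v := pt b) (w := pt c3) ka3 K.one_mem kb K.one_mem kc3 K.one_mem
  have k2 := cst (u := pt a3) (v := pt c3) (w := pt a2) ka3 K.one_mem kc3 K.one_mem ka2 K.one_mem
  have k3 := cst (u := pt a3) (v := pt a2) (w := po F) ka3 K.one_mem ka2 K.one_mem K.one_mem
    K.zero_mem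
  have k4 := cst (u := pt a3) (v := po F) (w := pt c2) ka3 K.one_mem K.one_mem K.zero_mem kc2
    K.one_mem
  have hsum := Submodule.neg_mem _ (Submodule.add_mem _ (Submodule.add_mem _
    (Submodule.add_mem _ k1 k2) k3) k4)
  refine (congrArg (· ∈ SK K) ?_).mpr hsum
  rw [FT', dX, dW1, dW2]
  linear_combination (norm := module) f1 + f2 + f3 + f4 - r1 - r2 + r3 - r3' + r4 - r4' - r5 -
    r6 - r7 - r8

end

section

variable {k : Type*} [Field k] {F : Type*} [Field F] [CharZero F] [Algebra k F]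

lemma SK_le : SK (algebraMap k F).fieldRange ≤ SC k F := by
  refine Submodule.span_le.mpr ?_
  rintro a ⟨c, ⟨c', rfl⟩, rfl⟩
  exact Submodule.subset_span ⟨c', rfl⟩

/-- **functions of degree three**, with parameters in the field of constants -/
theorem sy_cubic' {x : F} (hx : ∀ c : k, x ≠ algebraMap k F c) {a1 a2 a3 b c1 c2 c3 κ : k}
    (H : ∀ p, κ * (p - a1) * (p - a2) * (p - a3) - κ * (p - c1) * (p - c2) * (p - c3) =
      (p - b) ^ 2)
    (ab1 : a1 ≠ b) (ab2 : a2 ≠ b) (ab3 : a3 ≠ b) (cb1 : c1 ≠ b) (cb2 : c2 ≠ b) (cb3 : c3 ≠ b)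
    (aa : a2 ≠ a3) :
    sy (algebraMap k F κ * (x - algebraMap k F a1) * (x - algebraMap k F a2) *
      (x - algebraMap k F a3) / (x - algebraMap k F b) ^ 2) -
      (SS (pt x) (pt (algebraMap k F a1)) (pt (algebraMap k F b)) (pt (algebraMap k F c1)) +
       SS (pt x) (pt (algebraMap k F a2)) (pt (algebraMap k F b)) (pt (algebraMap k F c1)) +
       SS (pt x) (pt (algebraMap k F a3)) (po F) (pt (algebraMap k F c1)) -
       SS (pt x) (pt (algebraMap k F a2)) (pt (algebraMap k F c2)) (pt (algebraMap k F b)) -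
       SS (pt x) (pt (algebraMap k F a3)) (pt (algebraMap k F c3)) (pt (algebraMap k F b)) -
       SS (pt x) (pt (algebraMap k F a1)) (pt (algebraMap k F c2)) (pt (algebraMap k F b)) +
       SS (pt x) (pt (algebraMap k F a1)) (po F) (pt (algebraMap k F c3)) +
       SS (pt x) (pt (algebraMap k F a3)) (pt (algebraMap k F b)) (pt (algebraMap k F c3)) +
       SS (pt x) (pt (algebraMap k F a3)) (pt (algebraMap k F c3)) (pt (algebraMap k F a2)) +
       SS (pt x) (pt (algebraMap k F a3)) (pt (algebraMap k F a2)) (po F) +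
       SS (pt x) (pt (algebraMap k F a3)) (po F) (pt (algebraMap k F c2))) ∈ SC k F := by
  have hinj := FaithfulSMul.algebraMap_injective k F
  have hk : CharZero k := by
    constructor
    intro m n h
    have := congrArg (algebraMap k F) h
    rw [map_natCast, map_natCast] at this
    exact Nat.cast_injective this
  refine SK_le (sy_cubic (algebraMap k F).fieldRange (fun ⟨c, hc⟩ => hx c hc.symm)
    ⟨a1, rfl⟩ ⟨a2, rfl⟩ ⟨a3, rfl⟩ ⟨b, rfl⟩ ⟨c1, rfl⟩ ⟨c2, rfl⟩ ⟨c3, rfl⟩ ⟨κ, rfl⟩ ?_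
    (hinj.ne ab1) (hinj.ne ab2) (hinj.ne ab3) (hinj.ne cb1) (hinj.ne cb2) (hinj.ne cb3)
    (hinj.ne aa))
  intro p
  have h0 := congrArg (algebraMap k F) (H 0)
  have h1 := congrArg (algebraMap k F) (H 1)
  have h2 := congrArg (algebraMap k F) (H (-1))
  simp only [map_sub, map_mul, map_pow, map_zero, map_one, map_neg] at h0 h1 h2
  have two : (2 : F) ≠ 0 := two_ne_zero
  refine mul_left_cancel₀ two ?_
  linear_combination (2 - 2 * p ^ 2) * h0 + (p ^ 2 + p) * h1 + (p ^ 2 - p) * h2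

end

end Pool.Agent.KC72
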