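import Pool.Agent.Lib_helper24.TN.N4K

/-!
# Closed elements from a certificate: the abstract theorem
-/

set_option autoImplicit false
set_option linter.unusedSectionVars false
set_option linter.unusedVariables false

open scoped TensorProduct

namespace Pool.Agent.KC72

open TN MK4

section Abs

variable {V M : Type*} [AddCommGroup V] [Module ℚ V] [AddCommGroup M] [Module ℚ M]

/-- the coordinate `(i, j, l)` of `b ∧ a ∧ y` -/
def det3 {n : ℕ} {R : Type*} [CommRing R] (b a y : Fin n → R) (q : Fin n × Fin n × Fin n) : R :=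
  (b q.1 * a q.2.1 - a q.1 * b q.2.1) * y q.2.2 - (b q.1 * y q.2.1 - y q.1 * b q.2.1) * a q.2.2 +
    (a q.1 * y q.2.1 - y q.1 * a q.2.1) * b q.2.2

/-- **closed elements from a certificate** -/
theorem abs_closed {n m nq : ℕ} (r : ℕ) (g : Fin n → V) (hg : LinearIndependent ℚ g)
    (φ : Fin n → V →ₗ[ℚ] ℚ) (hφ : ∀ i j : Fin n, i.val < r → φ i (g j) = if i = j then 1 else 0)
    (a b : Fin m → Fin n → ℤ) (B : Fin m → V →ₗ[ℚ] M)
    (D' : ℤ) (hD' : D' ≠ 0) (G : Fin m → Fin n → Fin n → ℤ)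
    (hG0 : ∀ c i j, G c i j ≠ 0 → i.val < r ∧ j.val < r)
    (hG : ∀ c c', ∑ i, ∑ j, G c i j * (b c' i * a c' j - a c' i * b c' j) =
      if c = c' then D' else 0)
    (Q : Fin nq → Fin n × Fin n × Fin n) (hQ : ∀ q, (Q q).1.val < r ∧ (Q q).2.1.val < r)
    (ψ : Fin nq → M) (ξ : M) (β : Fin m → Fin n → ℤ) (D : ℤ) (hD : D ≠ 0)
    (H3 : ∀ c j, (D : ℚ) • B c (g j) =
      ∑ q, ((det3 (b c) (a c) (Pi.single j 1) (Q q) : ℤ) : ℚ) • ψ q + (β c j : ℚ) • ξ)
    (u : Fin m → V) (w : ExteriorAlgebra ℚ V)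
    (hw : ∀ i j : Fin n, i.val < r → j.val < r → ct (φ i) (φ j) w = 0)
    (hc : ∑ c, ExteriorAlgebra.ι ℚ (∑ j, (b c j : ℚ) • g j) *
      ExteriorAlgebra.ι ℚ (∑ j, (a c j : ℚ) • g j) * ExteriorAlgebra.ι ℚ (u c) + w = 0) :
    ∃ β' : ℚ, ∑ c, B c (u c) = β' • ξ := by
  classical
  have hφa : ∀ (a : Fin n → ℤ) (i : Fin n), i.val < r → φ i (∑ j, (a j : ℚ) • g j) = a i := by
    intro a i hi
    rw [map_sum]
    simp only [map_smul, hφ i _ hi, smul_eq_mul, mul_ite, mul_one, mul_zero]
    rw [Finset.sum_ite_eq]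
    simp
  -- the contracted equations
  have eq : ∀ i j : Fin n, i.val < r → j.val < r →
      ∑ c, ((((b c i : ℚ) * a c j - a c i * b c j) • u c) -
        (((b c i : ℚ) * φ j (u c) - φ i (u c) * b c j) • ∑ l, (a c l : ℚ) • g l) +
        (((a c i : ℚ) * φ j (u c) - φ i (u c) * a c j) • ∑ l, (b c l : ℚ) • g l)) = 0 := by
    intro i j hi hj
    have h1 := congrArg (ct (φ i) (φ j)) hc
    rw [map_add, map_sum, map_zero, hw i j hi hj, add_zero] at h1
    simp only [ct_mul3, hφa _ _ hi, hφa _ _ hj] at h1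
    rw [← map_sum] at h1
    have h2 := (ExteriorAlgebra.ι_eq_zero_iff _).mp h1
    exact h2
  -- the unknowns lie in the span of the generators
  have hsp : ∀ c, u c ∈ Submodule.span ℚ (Set.range g) := by
    intro c
    have hgm : ∀ a : Fin n → ℤ, (∑ l, (a l : ℚ) • g l) ∈ Submodule.span ℚ (Set.range g) :=
      fun a => Submodule.sum_mem _ fun l _ => Submodule.smul_mem _ _ (Submodule.subset_span ⟨l, rfl⟩)
    have h1 : (D' : ℚ) • u c = ∑ i, ∑ j, (G c i j : ℚ) • ∑ c', ((b c' i : ℚ) * a c' j -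
        a c' i * b c' j) • u c' := by
      have e1 : ∑ i, ∑ j, (G c i j : ℚ) • ∑ c', ((b c' i : ℚ) * a c' j - a c' i * b c' j) • u c' =
          ∑ c', (∑ i, ∑ j, (G c i j : ℚ) * ((b c' i : ℚ) * a c' j - a c' i * b c' j)) • u c' := by
        simp only [Finset.smul_sum, Finset.sum_smul, smul_smul]
        symm
        rw [Finset.sum_comm]
        refine Finset.sum_congr rfl fun i _ => ?_
        rw [Finset.sum_comm]
      rw [e1]
      have e2 : ∀ c', (∑ i, ∑ j, (G c i j : ℚ) * ((b c' i : ℚ) * a c' j - a c' i * b c' j)) =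
          if c = c' then (D' : ℚ) else 0 := by
        intro c'
        have := hG c c'
        rw [← Int.cast_inj (α := ℚ)] at this
        push_cast at this
        rw [this]
      simp only [e2, ite_smul, zero_smul]
      rw [Finset.sum_ite_eq]
      simp
    have h2 : (D' : ℚ) • u c ∈ Submodule.span ℚ (Set.range g) := by
      rw [h1]
      refine Submodule.sum_mem _ fun i _ => Submodule.sum_mem _ fun j _ => ?_
      by_cases hG' : G c i j = 0
      · rw [hG', Int.cast_zero, zero_smul]; exact Submodule.zero_mem _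
      obtain ⟨hi, hj⟩ := hG0 c i j hG'
      refine Submodule.smul_mem _ _ ?_
      have h3 := eq i j hi hj
      rw [Finset.sum_add_distrib, Finset.sum_sub_distrib] at h3
      have h4 : ∑ c', ((b c' i : ℚ) * a c' j - a c' i * b c' j) • u c' =
          ∑ c', ((b c' i : ℚ) * φ j (u c') - φ i (u c') * b c' j) • ∑ l, (a c' l : ℚ) • g l -
          ∑ c', ((a c' i : ℚ) * φ j (u c') - φ i (u c') * a c' j) • ∑ l, (b c' l : ℚ) • g l := by
        rw [← sub_eq_zero, ← h3]; abel
      rw [h4]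
      exact Submodule.sub_mem _
        (Submodule.sum_mem _ fun c' _ => Submodule.smul_mem _ _ (hgm _))
        (Submodule.sum_mem _ fun c' _ => Submodule.smul_mem _ _ (hgm _))
    have h3 := Submodule.smul_mem _ (D' : ℚ)⁻¹ h2
    rwa [smul_smul, inv_mul_cancel₀ (by exact_mod_cast hD'), one_smul] at h3
  have hsp' : ∀ c, ∃ y : Fin n → ℚ, ∑ j, y j • g j = u c := fun c =>
    (Submodule.mem_span_range_iff_exists_fun ℚ).mp (hsp c)
  choose y hy using hsp'
  have hφu : ∀ c (i : Fin n), i.val < r → φ i (u c) = y c i := by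
    intro c i hi
    rw [← hy, map_sum]
    simp only [map_smul, hφ i _ hi, smul_eq_mul, mul_ite, mul_one, mul_zero]
    rw [Finset.sum_ite_eq]
    simp
  -- the coordinates of the differential vanish
  have hdet : ∀ i j l : Fin n, i.val < r → j.val < r →
      ∑ c, det3 (fun i => (b c i : ℚ)) (fun i => (a c i : ℚ)) (y c) (i, j, l) = 0 := by
    intro i j l hi hj
    have h1 := eq i j hi hj
    have h2 : ∑ l, (∑ c, det3 (fun i => (b c i : ℚ)) (fun i => (a c i : ℚ)) (y c) (i, j, l)) • g l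
        = 0 := by
      rw [← h1]
      simp only [Finset.sum_smul]
      rw [Finset.sum_comm]
      refine Finset.sum_congr rfl fun c _ => ?_
      rw [hφu c i hi, hφu c j hj, ← hy c]
      simp only [Finset.smul_sum, smul_smul, ← Finset.sum_sub_distrib, ← Finset.sum_add_distrib,
        ← sub_smul, ← add_smul]
      rfl
    exact (Fintype.linearIndependent_iff.mp hg) _ h2 l
  -- linearity in `y`
  have hlin : ∀ (c : Fin m) (q : Fin nq),
      ∑ j, y c j * ((det3 (b c) (a c) (Pi.single j 1) (Q q) : ℤ) : ℚ) =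
        det3 (fun i => (b c i : ℚ)) (fun i => (a c i : ℚ)) (y c) (Q q) := by
    intro c q
    have key : ∀ l, ∑ j, y c j * (((Pi.single j 1 : Fin n → ℤ) l : ℤ) : ℚ) = y c l := by
      intro l
      simp [Pi.single_apply]
    unfold det3
    rw [← key (Q q).1, ← key (Q q).2.1, ← key (Q q).2.2]
    push_cast
    simp only [Finset.mul_sum, Finset.sum_mul, ← Finset.sum_sub_distrib,
      ← Finset.sum_add_distrib]
    exact Finset.sum_congr rfl fun j _ => by ring
  refine ⟨(D : ℚ)⁻¹ * ∑ c, ∑ j, y c j * β c j, ?_⟩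
  have hDq : (D : ℚ) ≠ 0 := by exact_mod_cast hD
  have h5 : (D : ℚ) • ∑ c, B c (u c) = (∑ c, ∑ j, y c j * β c j) • ξ := by
    have e1 : ∀ c, (D : ℚ) • B c (u c) = ∑ q, (det3 (fun i => (b c i : ℚ))
        (fun i => (a c i : ℚ)) (y c) (Q q)) • ψ q + (∑ j, y c j * β c j) • ξ := by
      intro c
      rw [← hy c, map_sum, Finset.smul_sum]
      simp only [← hlin, Finset.sum_smul, map_smul]
      rw [Finset.sum_comm, ← Finset.sum_add_distrib]
      refine Finset.sum_congr rfl fun j _ => ?_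
      rw [smul_comm, H3, smul_add, Finset.smul_sum, smul_smul]
      simp only [smul_smul]
    rw [Finset.smul_sum]
    simp only [e1]
    rw [Finset.sum_add_distrib, Finset.sum_comm, Finset.sum_smul]
    have e2 : ∑ q, ∑ c, (det3 (fun i => (b c i : ℚ)) (fun i => (a c i : ℚ)) (y c) (Q q)) • ψ q
        = 0 := by
      refine Finset.sum_eq_zero fun q _ => ?_
      rw [← Finset.sum_smul]
      have := hdet (Q q).1 (Q q).2.1 (Q q).2.2 (hQ q).1 (hQ q).2
      rw [show ((Q q).1, (Q q).2.1, (Q q).2.2) = Q q from rfl] at this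
      rw [this, zero_smul]
    rw [e2, zero_add]
  rw [mul_smul, ← h5, smul_smul, inv_mul_cancel₀ hDq, one_smul]

end Abs

end Pool.Agent.KC72
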