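import Pool.Agent.Lib_helper72.KC.A

/-!
# Closed elements from a certificate: lists of integers, exponents, the six functions of a class
-/

set_option autoImplicit false
set_option linter.unusedSectionVars false
set_option linter.unusedVariables false

open scoped TensorProduct

namespace Pool.Agent.KC72

open TN MK4

/-! ### linear combinations with lists of coefficients -/

/-- `a x + y` -/
def axpy (a : ℤ) : List ℤ → List ℤ → List ℤ
  | [], y => y
  | x :: xs, [] => a * x :: axpy a xs []
  | x :: xs, y :: ys => (a * x + y) :: axpy a xs ys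

/-- the combination of a list of vectors -/
def comb : List ℤ → List (List ℤ) → List ℤ
  | c :: cs, v :: vs => if c = 0 then comb cs vs else axpy c v (comb cs vs)
  | _, _ => []

/-- all coefficients vanish -/
def isZ (v : List ℤ) : Bool := v.all (fun x => x = 0)

/-- `s e_c` -/
def sgl (c : ℕ) (s : ℤ) : List ℤ := List.replicate c 0 ++ [s]

/-- the outer product -/
def outer (ρ a : List ℤ) : List ℤ := ρ.flatMap (fun r => a.map (fun x => r * x))

section Pl

variable {M : Type*} [AddCommGroup M] [Module ℚ M]

/-- `∑ v_i E_i` -/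
def pl : List M → List ℤ → M
  | e :: E, v :: vs => (v : ℚ) • e + pl E vs
  | _, _ => 0

@[simp] lemma pl_nil_left (v : List ℤ) : pl ([] : List M) v = 0 := by cases v <;> rfl
@[simp] lemma pl_nil_right (E : List M) : pl E [] = 0 := by cases E <;> rfl
@[simp] lemma pl_cons (e : M) (E : List M) (v : ℤ) (vs : List ℤ) :
    pl (e :: E) (v :: vs) = (v : ℚ) • e + pl E vs := rfl

lemma pl_axpy (a : ℤ) (E : List M) (x y : List ℤ) :
    pl E (axpy a x y) = (a : ℚ) • pl E x + pl E y := by
  induction x generalizing E y with
  | nil => simp [axpy]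
  | cons x xs ih =>
    cases y with
    | nil =>
      cases E with
      | nil => simp
      | cons e E =>
        simp only [axpy, pl_cons, ih, pl_nil_right, add_zero]
        push_cast
        module
    | cons y ys =>
      cases E with
      | nil => simp
      | cons e E =>
        simp only [axpy, pl_cons, ih]
        push_cast
        module

lemma pl_comb (E : List M) (c : List ℤ) (V : List (List ℤ)) :
    pl E (comb c V) = pl (V.map (pl E)) c := by
  induction c generalizing V with
  | nil => simp [comb]
  | cons c cs ih =>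
    cases V with
    | nil => simp [comb]
    | cons v vs =>
      unfold comb
      split_ifs with h
      · rw [ih, List.map_cons, pl_cons, h]; simp
      · rw [pl_axpy, ih, List.map_cons, pl_cons]

lemma pl_isZ (E : List M) {v : List ℤ} (h : isZ v = true) : pl E v = 0 := by
  induction v generalizing E with
  | nil => simp
  | cons x v ih =>
    cases E with
    | nil => simp
    | cons e E =>
      simp only [isZ, List.all_cons, Bool.and_eq_true, decide_eq_true_eq] at h
      rw [pl_cons, ih E h.2, h.1]
      simp

lemma pl_zero (E : List M) (hE : ∀ e ∈ E, e = 0) (v : List ℤ) : pl E v = 0 := by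
  induction v generalizing E with
  | nil => simp
  | cons x v ih =>
    cases E with
    | nil => simp
    | cons e E =>
      rw [pl_cons, hE e (by simp), ih E fun e' he' => hE e' (by simp [he'])]
      simp

lemma pl_sgl (E : List M) (c : ℕ) (s : ℤ) : pl E (sgl c s) = (s : ℚ) • E.getD c 0 := by
  induction c generalizing E with
  | zero => cases E <;> simp [sgl]
  | succ c ih =>
    cases E with
    | nil => simp
    | cons e E =>
      have h : sgl (c + 1) s = 0 :: sgl c s := by
        simp [sgl, List.replicate_succ]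
      rw [h, pl_cons, ih]
      simp

lemma pl_append (E E' : List M) (v v' : List ℤ) (h : E.length = v.length) :
    pl (E ++ E') (v ++ v') = pl E v + pl E' v' := by
  induction E generalizing v with
  | nil =>
    have : v = [] := List.length_eq_zero_iff.mp h.symm
    subst this
    simp
  | cons e E ih =>
    cases v with
    | nil => simp at h
    | cons x v =>
      simp only [List.length_cons, Nat.add_right_cancel_iff] at h
      simp only [List.cons_append, pl_cons, ih v h]
      abel

variable {V : Type*} [AddCommGroup V] [Module ℚ V]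

lemma pl_map (B : V →ₗ[ℚ] M) (g : List V) (a : List ℤ) : pl (g.map B) a = B (pl g a) := by
  induction g generalizing a with
  | nil => simp
  | cons e g ih =>
    cases a with
    | nil => simp
    | cons x a => rw [List.map_cons, pl_cons, ih, pl_cons, map_add, map_smul]

lemma pl_mul (g : List V) (r : ℤ) (a : List ℤ) :
    pl g (a.map (fun x => r * x)) = (r : ℚ) • pl g a := by
  induction g generalizing a with
  | nil => simp
  | cons e g ih =>
    cases a with
    | nil => simp
    | cons x a =>
      rw [List.map_cons, pl_cons, ih, pl_cons]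
      push_cast
      module

lemma pl_app (Bl : List (V →ₗ[ℚ] M)) (ρ : List ℤ) (x : V) :
    (pl Bl ρ) x = pl (Bl.map (fun B => B x)) ρ := by
  induction Bl generalizing ρ with
  | nil => simp
  | cons B Bl ih =>
    cases ρ with
    | nil => simp
    | cons r ρ => rw [List.map_cons, pl_cons, pl_cons, LinearMap.add_apply, ih]; rfl

lemma pl_outer (Bl : List (V →ₗ[ℚ] M)) (g : List V) (ρ a : List ℤ) (h : a.length = g.length) :
    pl (Bl.flatMap (fun B : V →ₗ[ℚ] M => g.map B)) (outer ρ a) = (pl Bl ρ) (pl g a) := by
  induction Bl generalizing ρ with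
  | nil => simp
  | cons B Bl ih =>
    cases ρ with
    | nil => simp [outer]
    | cons r ρ =>
      have h1 : outer (r :: ρ) a = a.map (fun x => r * x) ++ outer ρ a := by
        simp [outer]
      rw [h1, List.flatMap_cons, pl_append _ _ _ _ (by simp [h]), ih, pl_cons,
        LinearMap.add_apply, LinearMap.smul_apply, pl_mul, pl_map]

/-- the combination as a finite sum -/
lemma pl_ofFn {n : ℕ} (g : Fin n → M) (a : List ℤ) :
    pl (List.ofFn g) a = ∑ j : Fin n, ((a.getD j.val 0 : ℤ) : ℚ) • g j := by
  induction n generalizing a with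
  | zero => simp
  | succ n ih =>
    rw [List.ofFn_succ, Fin.sum_univ_succ]
    cases a with
    | nil => simp
    | cons x a =>
      rw [pl_cons, ih]
      simp

end Pl

/-! ### exponents -/

/-- a sign and a list of exponents -/
abbrev Mo : Type := Bool × List ℤ

/-- the quotient -/
def Mo.div (a b : Mo) : Mo := (xor a.1 b.1, axpy (-1) b.2 a.2)

/-- the product -/
def Mo.mul (a b : Mo) : Mo := (xor a.1 b.1, axpy 1 b.2 a.2)

/-- the inverse -/
def Mo.inv (a : Mo) : Mo := (a.1, a.2.map (fun x => -x))

/-- the opposite -/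
def Mo.neg (a : Mo) : Mo := (!a.1, a.2)

section Ev

variable {F : Type*} [Field F]

/-- monomials -/
def evl : List F → List ℤ → F
  | x :: g, e :: es => x ^ e * evl g es
  | _, _ => 1

@[simp] lemma evl_nil_left (v : List ℤ) : evl ([] : List F) v = 1 := by cases v <;> rfl
@[simp] lemma evl_nil_right (g : List F) : evl g [] = 1 := by cases g <;> rfl
@[simp] lemma evl_cons (x : F) (g : List F) (e : ℤ) (es : List ℤ) :
    evl (x :: g) (e :: es) = x ^ e * evl g es := rfl

lemma evl_ne {g : List F} (hg : ∀ x ∈ g, x ≠ 0) (a : List ℤ) : evl g a ≠ 0 := by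
  induction g generalizing a with
  | nil => simp
  | cons x g ih =>
    cases a with
    | nil => simp
    | cons e a =>
      rw [evl_cons]
      exact mul_ne_zero (zpow_ne_zero _ (hg x (by simp))) (ih (fun y hy => hg y (by simp [hy])) a)

lemma evl_axpy {g : List F} (hg : ∀ x ∈ g, x ≠ 0) (c : ℤ) (a b : List ℤ) :
    evl g (axpy c a b) = evl g a ^ c * evl g b := by
  induction a generalizing g b with
  | nil => simp [axpy]
  | cons x a ih =>
    cases g with
    | nil => simp
    | cons e g =>
      have he := hg e (by simp)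
      have hg' : ∀ y ∈ g, y ≠ 0 := fun y hy => hg y (by simp [hy])
      cases b with
      | nil =>
        simp only [axpy, evl_cons, ih hg', evl_nil_right, mul_one]
        rw [mul_zpow, ← zpow_mul, mul_comm c x]
      | cons y b =>
        simp only [axpy, evl_cons, ih hg']
        rw [mul_zpow, ← zpow_mul, zpow_add₀ he, mul_comm c x]
        ring

lemma evl_neg (g : List F) (a : List ℤ) :
    evl g (a.map (fun x => -x)) = (evl g a)⁻¹ := by
  induction g generalizing a with
  | nil => simp
  | cons e g ih =>
    cases a with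
    | nil => simp
    | cons x a => rw [List.map_cons, evl_cons, evl_cons, ih, zpow_neg, mul_inv]

lemma lg_evl {g : List F} (hg : ∀ x ∈ g, x ≠ 0) (a : List ℤ) :
    lg (evl g a) = pl (g.map lg) a := by
  induction g generalizing a with
  | nil => simp [lg1]
  | cons e g ih =>
    have he := hg e (by simp)
    have hg' : ∀ y ∈ g, y ≠ 0 := fun y hy => hg y (by simp [hy])
    cases a with
    | nil => simp [lg1]
    | cons x a =>
      rw [evl_cons, List.map_cons, pl_cons, lgmul (zpow_ne_zero _ he) (evl_ne hg' _), lgzpow he,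
        ih hg']

/-- the function -/
def ev (g : List F) (a : Mo) : F := (bif a.1 then -1 else 1) * evl g a.2

lemma ev_ne {g : List F} (hg : ∀ x ∈ g, x ≠ 0) (a : Mo) : ev g a ≠ 0 := by
  unfold ev
  refine mul_ne_zero ?_ (evl_ne hg _)
  cases a.1 <;> simp

lemma ev_div {g : List F} (hg : ∀ x ∈ g, x ≠ 0) (a b : Mo) :
    ev g (a.div b) = ev g a / ev g b := by
  unfold ev Mo.div
  rw [evl_axpy hg]
  have h1 := evl_ne hg b.2
  rcases a with ⟨_ | _, a⟩ <;> rcases b with ⟨_ | _, b⟩ <;> simp <;> field_simp

lemma ev_mul {g : List F} (hg : ∀ x ∈ g, x ≠ 0) (a b : Mo) :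
    ev g (a.mul b) = ev g a * ev g b := by
  unfold ev Mo.mul
  rw [evl_axpy hg]
  rcases a with ⟨_ | _, a⟩ <;> rcases b with ⟨_ | _, b⟩ <;> simp [mul_comm]

lemma ev_inv (g : List F) (a : Mo) : ev g a.inv = (ev g a)⁻¹ := by
  unfold ev Mo.inv
  rw [evl_neg]
  rcases a with ⟨_ | _, a⟩ <;> simp

lemma ev_neg (g : List F) (a : Mo) : ev g a.neg = - ev g a := by
  unfold ev Mo.neg
  rcases a with ⟨_ | _, a⟩ <;> simp

lemma lg_ev {g : List F} (hg : ∀ x ∈ g, x ≠ 0) (a : Mo) :
    lg (ev g a) = pl (g.map lg) a.2 := by
  rw [← lg_evl hg]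
  unfold ev
  rcases a with ⟨_ | _, a⟩
  · simp
  · simp only [cond_true, neg_mul, one_mul]
    rw [lgneg]

/-! ### the six functions of a class -/

/-- the six functions -/
def orb6 (f h : Mo) : ℕ → Mo
  | 0 => f
  | 1 => h
  | 2 => f.inv
  | 3 => (h.div f).neg
  | 4 => h.inv
  | _ => (f.div h).neg

/-- `1 - f` -/
def cm6 : ℕ → ℕ
  | 0 => 1
  | 1 => 0
  | 2 => 3
  | 3 => 2
  | 4 => 5
  | _ => 4

/-- the signs of the symbols -/
def sg6 : ℕ → ℤ
  | 0 => 1
  | 1 => -1
  | 2 => -1
  | 3 => 1
  | 4 => 1
  | _ => -1

lemma orb6_add {g : List F} (hg : ∀ x ∈ g, x ≠ 0) {f h : Mo} (H : ev g f + ev g h = 1) (σ : ℕ) :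
    ev g (orb6 f h σ) + ev g (orb6 f h (cm6 σ)) = 1 := by
  have hf := ev_ne hg f
  have hh := ev_ne hg h
  have H' : ev g h = 1 - ev g f := by linear_combination H
  rcases σ with _ | _ | _ | _ | _ | σ
  · exact H
  · show ev g h + ev g f = 1
    linear_combination H
  · show ev g f.inv + ev g (h.div f).neg = 1
    rw [ev_inv, ev_neg, ev_div hg]
    field_simp
    linear_combination -H
  · show ev g (h.div f).neg + ev g f.inv = 1
    rw [ev_inv, ev_neg, ev_div hg]
    field_simp
    linear_combination -H
  · show ev g h.inv + ev g (f.div h).neg = 1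
    rw [ev_inv, ev_neg, ev_div hg]
    field_simp
    linear_combination -H
  · show ev g (f.div h).neg + ev g h.inv = 1
    rw [ev_inv, ev_neg, ev_div hg]
    field_simp
    linear_combination -H

lemma orb6_sy [CharZero F] {g : List F} (hg : ∀ x ∈ g, x ≠ 0) {f h : Mo}
    (H : ev g f + ev g h = 1) (σ : ℕ) :
    sy (ev g (orb6 f h σ)) = (sg6 σ : ℚ) • sy (ev g f) := by
  have hf := ev_ne hg f
  have hh := ev_ne hg h
  have e1 : ev g h = 1 - ev g f := by linear_combination H
  have s1 : sy (ev g h) = - sy (ev g f) := by rw [e1, sycompl]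
  have e3 : ev g (h.div f).neg = 1 - (ev g f)⁻¹ := by
    rw [ev_neg, ev_div hg, e1]; field_simp; ring
  have e5 : ev g (f.div h).neg = 1 - (ev g h)⁻¹ := by
    rw [ev_neg, ev_div hg]
    have : ev g f = 1 - ev g h := by linear_combination H
    rw [this]; field_simp; ring
  rcases σ with _ | _ | _ | _ | _ | σ
  · show sy (ev g f) = ((1 : ℤ) : ℚ) • _
    simp
  · show sy (ev g h) = ((-1 : ℤ) : ℚ) • _
    rw [s1]; simp
  · show sy (ev g f.inv) = ((-1 : ℤ) : ℚ) • _
    rw [ev_inv, syinv]; simp
  · show sy (ev g (h.div f).neg) = ((1 : ℤ) : ℚ) • _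
    rw [e3, sycompl, syinv]; simp
  · show sy (ev g h.inv) = ((1 : ℤ) : ℚ) • _
    rw [ev_inv, syinv, s1]; simp
  · show sy (ev g (f.div h).neg) = ((-1 : ℤ) : ℚ) • _
    rw [e5, sycompl, syinv, s1]; simp

end Ev

end Pool.Agent.KC72
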