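import Pool.Agent.Lib_helper72.KC.D

/-!
# Closed elements from a certificate: the theorem
-/

set_option autoImplicit false
set_option linter.unusedSectionVars false
set_option linter.unusedVariables false

open scoped TensorProduct

namespace Pool.Agent.KC72

open TN MK4

section

variable {k : Type*} [Field k] {F : Type*} [Field F] [Algebra k F]

/-- all checks -/
structure Ok (C : Cert) : Prop where
  rn : C.r ≤ C.n
  DG : C.DG ≠ 0
  D : C.D ≠ 0
  c1 : C.chk1 = true
  c2 : ∀ c < C.cls.length, C.chk2 c = true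
  c3 : ∀ c < C.bas.length, ∀ c' < C.bas.length, C.chk3 c c' = true
  c3' : C.chk3' = true
  c4 : C.chk4 = true
  c5 : C.chk5 = true
  c6 : ∀ c < C.bas.length, ∀ j < C.n, C.chk6 c j = true
  c7 : C.chk7 = true

lemma ok_of_chk {C : Cert} (h : C.chk = true) : Ok C := by
  unfold Cert.chk at h
  simp only [Bool.and_eq_true, decide_eq_true_eq, List.all_eq_true, List.mem_range] at h
  obtain ⟨⟨⟨⟨⟨⟨⟨⟨⟨⟨h1, h2⟩, h3⟩, h4⟩, h5⟩, h6⟩, h7⟩, h8⟩, h9⟩, h10⟩, h11⟩ := h
  exact ⟨h1, h2, h3, h4, h5, h6, h7, h8, h9, h10, h11⟩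

/-- **closed elements from a certificate** -/
theorem cert_main [CharZero F] (C : Cert) (hC : Ok C) {G : Fin C.n → F} (hG : ∀ i, G i ≠ 0)
    (hk : ∀ x ∈ (List.ofFn G).drop C.r, ∃ c : k, x = algebraMap k F c)
    (hI : ∀ q : Fin C.n → ℚ, ∑ i, q i • lg (G i) ∈ V0 k F → ∀ i : Fin C.n, i.val < C.r → q i = 0)
    (hJ : LinearIndependent ℚ (fun i => lg (G i)))
    (H : Sols (List.ofFn G) C.cls) (u : Fin C.cls.length → FT F) {κ : HK F} (hκ : κ ∈ KC k F)
    (hc : Closed (∑ c, MK4.hk (sy (ev (List.ofFn G) (C.cls.get c).1)) (u c) + κ)) :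
    ∃ β : ℚ, (KC k F).mkQ (∑ c, MK4.hk (sy (ev (List.ofFn G) (C.cls.get c).1)) (u c)) =
      β • pl (EB C k (List.ofFn G)) C.xi := by
  classical
  set g := List.ofFn G with hgdef
  have hg : ∀ x ∈ g, x ≠ 0 := by
    intro x hx
    rw [hgdef, List.mem_ofFn] at hx
    obtain ⟨i, rfl⟩ := hx
    exact hG i
  -- the basis classes
  have h7 := hC.c7
  unfold Cert.chk7 at h7
  rw [List.all_eq_true] at h7
  have h7' : ∀ i : Fin C.bas.length, C.bas.get i < C.cls.length ∧
      (C.cl (C.bas.get i)).1.2.length = C.n ∧ (C.cl (C.bas.get i)).2.2.length = C.n := by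
    intro i
    have := h7 (C.bas.get i) (List.get_mem _ _)
    simp only [Bool.and_eq_true, decide_eq_true_eq] at this
    exact ⟨this.1.1, this.1.2, this.2⟩
  set B : Fin C.bas.length → FT F →ₗ[ℚ] (HK F ⧸ KC k F) :=
    fun i => TT F k (sy (ev g (C.cl (C.bas.get i)).1)) with hB
  have hBl : Bl C k g = List.ofFn B := by
    unfold Bl
    refine List.ext_getElem (by simp) fun i h1 h2 => ?_
    rw [List.getElem_map, List.getElem_ofFn]
    have h3 : i < C.bas.length := by simpa using h1
    exact EW_getD (k := k) (g := g) (h7' ⟨i, h3⟩).1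
  -- expansion of the classes
  have hexp : ∀ (c : Fin C.cls.length) (x : FT F),
      TT F k (sy (ev g (C.cls.get c).1)) x = ∑ i, B i
        ((((C.rho.getD c.val default).2.2.getD i.val 0 : ℤ) : ℚ) •
          (((C.rho.getD c.val default).1 : ℚ)⁻¹ • x)) := by
    intro c x
    obtain ⟨h1, h2⟩ := rho_spec C hC.c1 hg hk H (hC.c2 c.val c.isLt)
    rw [EW_getD c.isLt, hBl, pl_ofFn] at h2
    have h3 : (C.cls.getD c.val default) = C.cls.get c := by
      rw [List.getD_eq_getElem?_getD, List.getElem?_eq_getElem c.isLt]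
      rfl
    rw [h3] at h2
    have h4 : ((C.rho.getD c.val default).1 : ℚ) ≠ 0 := by exact_mod_cast h1
    have h5 : TT F k (sy (ev g (C.cls.get c).1)) =
        ((C.rho.getD c.val default).1 : ℚ)⁻¹ • ∑ i, (((C.rho.getD c.val default).2.2.getD i.val 0
          : ℤ) : ℚ) • B i := by
      rw [← h2, smul_smul, inv_mul_cancel₀ h4, one_smul]
    rw [h5, LinearMap.smul_apply, LinearMap.sum_apply, Finset.smul_sum]
    refine Finset.sum_congr rfl fun i _ => ?_
    rw [LinearMap.smul_apply, map_smul, map_smul, smul_comm]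
  set u' : Fin C.bas.length → FT F := fun i => ∑ c, (((C.rho.getD c.val default).2.2.getD i.val 0
    : ℤ) : ℚ) • (((C.rho.getD c.val default).1 : ℚ)⁻¹ • u c) with hu'
  have e1 : (KC k F).mkQ (∑ c, MK4.hk (sy (ev g (C.cls.get c).1)) (u c)) = ∑ i, B i (u' i) := by
    rw [map_sum]
    have : ∀ c, (KC k F).mkQ (MK4.hk (sy (ev g (C.cls.get c).1)) (u c)) =
        TT F k (sy (ev g (C.cls.get c).1)) (u c) := fun c => rfl
    simp only [this, hexp]
    rw [Finset.sum_comm]
    refine Finset.sum_congr rfl fun i _ => ?_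
    rw [hu', map_sum]
  -- the element of `KC`
  set z' : HK F := ∑ i, MK4.hk (sy (ev g (C.cl (C.bas.get i)).1)) (u' i) with hz'
  have e2 : (KC k F).mkQ z' = ∑ i, B i (u' i) := by
    rw [hz', map_sum]; rfl
  set κ' : HK F := (∑ c, MK4.hk (sy (ev g (C.cls.get c).1)) (u c)) + κ - z' with hκ'
  have hκm : κ' ∈ KC k F := by
    rw [← Submodule.ker_mkQ (KC k F), LinearMap.mem_ker, hκ', map_sub, map_add, e1, e2,
      (Submodule.Quotient.mk_eq_zero _).mpr hκ |> fun h => (show (KC k F).mkQ κ = 0 from h)]
    abel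
  have hc' : Closed (z' + κ') := by
    rw [hκ', add_sub_cancel]
    exact hc
  rw [closed_dE, map_add, hz', map_sum] at hc'
  -- logarithms
  have hl : ∀ (i : Fin C.bas.length), lg (ev g (C.cl (C.bas.get i)).1) =
      ∑ j : Fin C.n, (((C.cl (C.bas.get i)).1.2.getD j.val 0 : ℤ) : ℚ) • lg (G j) := by
    intro i
    rw [lg_ev hg, hgdef, List.map_ofFn, pl_ofFn]
    rfl
  have hl' : ∀ (i : Fin C.bas.length), lg (1 - ev g (C.cl (C.bas.get i)).1) =
      ∑ j : Fin C.n, (((C.cl (C.bas.get i)).2.2.getD j.val 0 : ℤ) : ℚ) • lg (G j) := by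
    intro i
    have hS := H.getD (h7' i).1
    have e : 1 - ev g (C.cl (C.bas.get i)).1 = ev g (C.cl (C.bas.get i)).2 := by
      unfold Cert.cl
      linear_combination -hS
    rw [e, lg_ev hg, hgdef, List.map_ofFn, pl_ofFn]
    rfl
  simp only [dE_sy, hl, hl'] at hc'
  -- functionals
  obtain ⟨φ₀, hφ₀, hd₀⟩ := exists_dual (n := C.r) (V0 k F)
    (fun i => lg (G (Fin.castLE hC.rn i))) (by
      intro q hq
      have h1 : ∑ i : Fin C.r, q i • lg (G (Fin.castLE hC.rn i)) =
          ∑ j : Fin C.n, (if h : j.val < C.r then q ⟨j.val, h⟩ else 0) • lg (G j) := by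
        rw [← Finset.sum_subset (Finset.subset_univ
          (Finset.univ.map (Fin.castLEEmb hC.rn)))]
        · rw [Finset.sum_map]
          refine Finset.sum_congr rfl fun i _ => ?_
          have : (Fin.castLEEmb hC.rn i).val < C.r := by
            simp
          rw [dif_pos this]
          rfl
        · intro j _ hj
          have : ¬ j.val < C.r := by
            intro h
            apply hj
            rw [Finset.mem_map]
            exact ⟨⟨j.val, h⟩, Finset.mem_univ _, Fin.ext rfl⟩
          rw [dif_neg this, zero_smul]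
      rw [h1] at hq
      funext i
      have := hI _ hq (Fin.castLE hC.rn i) (by simp)
      simpa using this)
  set φ : Fin C.n → FT F →ₗ[ℚ] ℚ := fun j => if h : j.val < C.r then φ₀ ⟨j.val, h⟩ else 0 with hφd
  have hφ0 : ∀ (j : Fin C.n) (w : FT F), w ∈ V0 k F → φ j w = 0 := by
    intro j w hw
    rw [hφd]
    by_cases h : j.val < C.r
    · simp only [dif_pos h]; exact hφ₀ _ _ hw
    · simp only [dif_neg h]; rfl
  have hφ : ∀ i j : Fin C.n, i.val < C.r → φ i (lg (G j)) = if i = j then 1 else 0 := by
    intro i j hi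
    by_cases hj : j.val < C.r
    · have h1 := hd₀ ⟨i.val, hi⟩ ⟨j.val, hj⟩
      rw [hφd]
      simp only [dif_pos hi]
      have e : Fin.castLE hC.rn ⟨j.val, hj⟩ = j := Fin.ext rfl
      rw [e] at h1
      rw [h1]
      by_cases hij : i = j
      · subst hij; simp
      · rw [if_neg, if_neg hij]
        intro h
        apply hij
        rw [Fin.mk.injEq] at h
        exact Fin.ext h
    · rw [if_neg (by rintro rfl; exact hj hi)]
      apply hφ0
      obtain ⟨c, hc1⟩ := hk (G j) (by
        rw [hgdef, List.mem_drop_iff_getElem]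
        refine ⟨j.val - C.r, by simp; omega, ?_⟩
        rw [List.getElem_ofFn]
        congr 1
        apply Fin.ext
        simp only
        omega)
      rw [hc1]
      exact lg_mem_V0 c
  -- coordinates
  have h4 := hC.c4
  unfold Cert.chk4 at h4
  rw [List.all_eq_true] at h4
  have h4' : ∀ q : Fin C.Q.length, (C.Q.get q).1.1 < C.r ∧ (C.Q.get q).1.2.1 < C.r ∧
      (C.Q.get q).1.2.2 < C.n := by
    intro q
    have := h4 (C.Q.get q) (List.get_mem _ _)
    simp only [Bool.and_eq_true, decide_eq_true_eq] at this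
    exact ⟨this.1.1, this.1.2, this.2⟩
  have h3' := hC.c3'
  unfold Cert.chk3' at h3'
  simp only [List.all_eq_true, Bool.and_eq_true, decide_eq_true_eq] at h3'
  have rn := hC.rn
  obtain ⟨β, hβ⟩ := abs_closed (n := C.n) (m := C.bas.length) (nq := C.Q.length) C.r
    (fun i => lg (G i)) hJ φ hφ
    (fun i j => (C.cl (C.bas.get i)).1.2.getD j.val 0)
    (fun i j => (C.cl (C.bas.get i)).2.2.getD j.val 0) B C.DG hC.DG
    (fun c i j => ((C.G.getD c.val []).map (fun e => if e.1 = i.val ∧ e.2.1 = j.val then e.2.2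
      else 0)).sum)
    (by
      intro c i j hne
      by_contra hcon
      apply hne
      apply List.sum_eq_zero
      intro x hx
      rw [List.mem_map] at hx
      obtain ⟨e, he, rfl⟩ := hx
      rw [if_neg]
      rintro ⟨h1, h2⟩
      apply hcon
      have hmem : C.G.getD c.val [] ∈ C.G := by
        rw [List.getD_eq_getElem?_getD] at he ⊢
        rcases hgo : C.G[c.val]? with _ | l
        · rw [hgo] at he; simp at he
        · simpa using List.mem_of_getElem? hgo
      have := h3' _ hmem e he
      rw [← h1, ← h2]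
      exact this)
    (by
      intro c c'
      have h1 := hC.c3 c.val c.isLt c'.val c'.isLt
      unfold Cert.chk3 at h1
      rw [decide_eq_true_eq] at h1
      have h2 : C.bas.getD c'.val 0 = C.bas.get c' := by
        rw [List.getD_eq_getElem?_getD, List.getElem?_eq_getElem c'.isLt]; rfl
      rw [h2] at h1
      have h3 : (if c = c' then C.DG else 0) = if c.val = c'.val then C.DG else 0 := by
        simp only [Fin.ext_iff]
      rw [h3, ← h1]
      have hmem : ∀ e ∈ C.G.getD c.val [], e.1 < C.r ∧ e.2.1 < C.r := by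
        intro e he
        have hmem : C.G.getD c.val [] ∈ C.G := by
          rw [List.getD_eq_getElem?_getD] at he ⊢
          rcases hgo : C.G[c.val]? with _ | l
          · rw [hgo] at he; simp at he
          · simpa using List.mem_of_getElem? hgo
        exact h3' _ hmem e he
      have gen : ∀ (X : ℕ → ℕ → ℤ) (L : List (ℕ × ℕ × ℤ)), (∀ e ∈ L, e.1 < C.r ∧ e.2.1 < C.r) →
          ∑ i : Fin C.n, ∑ j : Fin C.n, (L.map (fun e => if e.1 = i.val ∧ e.2.1 = j.val then e.2.2
            else 0)).sum * X i.val j.val = (L.map (fun e => e.2.2 * X e.1 e.2.1)).sum := by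
        intro X L hL
        induction L with
        | nil => simp
        | cons e L ih =>
          rw [List.map_cons, List.sum_cons, ← ih fun e' he' => hL e' (by simp [he'])]
          obtain ⟨l1, l2⟩ := hL e (by simp)
          have h5 : e.2.2 * X e.1 e.2.1 = ∑ i : Fin C.n, ∑ j : Fin C.n,
              (if e.1 = i.val ∧ e.2.1 = j.val then e.2.2 else 0) * X i.val j.val := by
            rw [Finset.sum_eq_single ⟨e.1, by omega⟩]
            · rw [Finset.sum_eq_single ⟨e.2.1, by omega⟩]
              · simp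
              · intro j _ hj
                rw [if_neg, zero_mul]
                rintro ⟨-, h6⟩
                exact hj (Fin.ext h6.symm)
              · intro h; exact absurd (Finset.mem_univ _) h
            · intro i _ hi
              refine Finset.sum_eq_zero fun j _ => ?_
              rw [if_neg, zero_mul]
              rintro ⟨h6, -⟩
              exact hi (Fin.ext h6.symm)
            · intro h; exact absurd (Finset.mem_univ _) h
          rw [h5, ← Finset.sum_add_distrib]
          refine Finset.sum_congr rfl fun i _ => ?_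
          rw [← Finset.sum_add_distrib]
          refine Finset.sum_congr rfl fun j _ => ?_
          rw [List.map_cons, List.sum_cons, add_mul]
      exact gen (fun i j => min2 (C.cl (C.bas.get c')).2.2 (C.cl (C.bas.get c')).1.2 i j) _ hmem)
    (fun q => (⟨(C.Q.get q).1.1, by have := h4' q; omega⟩,
      ⟨(C.Q.get q).1.2.1, by have := h4' q; omega⟩, ⟨(C.Q.get q).1.2.2, (h4' q).2.2⟩))
    (fun q => ⟨(h4' q).1, (h4' q).2.1⟩)
    (fun q => pl (EB C k g) (C.Q.get q).2) (pl (EB C k g) C.xi)
    (fun c j => (C.beta.getD c.val []).getD j.val 0) C.D hC.D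
    (by
      intro c j
      have h1 := hC.c6 c.val c.isLt j.val j.isLt
      unfold Cert.chk6 at h1
      have h2 : C.bas.getD c.val 0 = C.bas.get c := by
        rw [List.getD_eq_getElem?_getD, List.getElem?_eq_getElem c.isLt]; rfl
      rw [h2] at h1
      have h3 := pl_isZ (EB C k g) h1
      have e0 : pl (EB C k g) (outer (sgl c.val 1) (un C.n j.val)) = B c (lg (G j)) := by
        unfold EB
        rw [pl_outer _ _ _ _ (by rw [un_length, hgdef]; simp), hgdef, List.map_ofFn,
          pl_un (fun i => (lg ∘ G) i), ← hgdef, hBl, pl_sgl]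
        rw [List.getD_eq_getElem?_getD, List.getElem?_ofFn]
        simp
      have T0 : ∀ v, pl (EB C k g) (comb v (C.T.map Prod.snd)) = 0 := by
        intro v
        rw [pl_comb]
        exact pl_zero _ (T_zero C rfl hG hC.c1 hC.c2 hC.c5 hk H) v
      rw [pl_axpy, pl_axpy, pl_axpy, e0, T0, pl_comb, List.map_map, pl_map_map] at h3
      have e3 : ∀ q : Fin C.Q.length, det3 (fun j : Fin C.n => (C.cl (C.bas.get c)).2.2.getD j.val 0)
          (fun j : Fin C.n => (C.cl (C.bas.get c)).1.2.getD j.val 0) (Pi.single j 1)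
          (⟨(C.Q.get q).1.1, by have := h4' q; omega⟩,
            ⟨(C.Q.get q).1.2.1, by have := h4' q; omega⟩, ⟨(C.Q.get q).1.2.2, (h4' q).2.2⟩) =
          det3L (C.cl (C.bas.get c)).2.2 (C.cl (C.bas.get c)).1.2 j.val (C.Q.get q).1 := by
        intro q
        have e4 : ∀ i : Fin C.n, (Pi.single j 1 : Fin C.n → ℤ) i = dlt i.val j.val := by
          intro i
          unfold dlt
          rw [Pi.single_apply]
          simp only [Fin.ext_iff]
        unfold det3 det3L
        simp only [e4]
      simp only [e3]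
      push_cast at h3
      simp only [Function.comp] at h3
      linear_combination (norm := module) -h3)
    u' (dE F κ') (fun i j _ _ => ct_KC (hφ0 i) (hφ0 j) hκm) hc'
  exact ⟨β, by rw [e1, hβ]⟩

end

end Pool.Agent.KC72
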