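import Pool.Agent.Lib_helper72.KC.X

/-!
# Cubic functions in the pre-Bloch group
-/

set_option autoImplicit false
set_option linter.unusedSectionVars false
set_option linter.unusedVariables false

open scoped TensorProduct

namespace Pool.Agent.KC72

open TN MK4

section

variable {F : Type*} [Field F] [CharZero F]

/-- the five term relation for a product -/
lemma ft {X Y W1 W2 : F} (hX0 : X ≠ 0) (hX1 : X ≠ 1) (hY0 : Y ≠ 0) (hY1 : Y ≠ 1)
    (hXY : X * Y ≠ 1) (h1 : W1 * (1 - X * Y) = X * (1 - Y)) (h2 : W2 * (1 - X * Y) = Y * (1 - X)) :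
    sy (X * Y) = sy X + sy Y - sy W1 - sy W2 := by
  have hne : X ≠ X * Y := by
    intro h
    apply hY1
    have h3 : X * (Y - 1) = 0 := by linear_combination -h
    rcases mul_eq_zero.mp h3 with h3 | h3
    · exact absurd h3 hX0
    · linear_combination h3
  have d : 1 - X * Y ≠ 0 := sub_ne_zero.mpr (Ne.symm hXY)
  have h := K4M.five hX0 hX1 (mul_ne_zero hX0 hY0) hXY hne
  have e1 : X * Y / X = Y := by field_simp
  have e2 : (1 - X⁻¹) / (1 - (X * Y)⁻¹) = W2 := by
    have n1 : (1 - (X * Y)⁻¹) = -(1 - X * Y) / (X * Y) := by field_simp; ring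
    have n2 : (1 - X⁻¹) = -(1 - X) / X := by field_simp; ring
    rw [n1, n2, div_div_div_eq, div_eq_iff (mul_ne_zero hX0 (neg_ne_zero.mpr d))]
    linear_combination X * h2
  have e3 : (1 - X) / (1 - X * Y) = 1 - W1 := by
    rw [div_eq_iff d]
    linear_combination h1
  rw [e1, e2, e3] at h
  have h3 : sy (1 - W1) = - sy W1 := sycompl W1
  have h' : sy X - sy (X * Y) + sy Y - sy W2 + sy (1 - W1) = 0 := h
  rw [h3] at h'
  linear_combination (norm := module) -h'

/-- the bracket -/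
def br (p q : F × F) : F := p.1 * q.2 - p.2 * q.1

/-- the function with zero `u`, pole `v` and value one at `w` -/
def cr (x u v w : F × F) : F := br x u * br w v / (br x v * br w u)

lemma cr_inv (x u v w : F × F) : cr x v u w = (cr x u v w)⁻¹ := by
  unfold cr; rw [inv_div]

lemma br_anti (p q : F × F) : br p q = - br q p := by unfold br; ring

lemma cr_compl {x u v w : F × F} (h1 : br x v ≠ 0) (h2 : br w u ≠ 0) :
    1 - cr x u v w = cr x w v u := by
  have h3 : br u w ≠ 0 := by rw [br_anti]; exact neg_ne_zero.mpr h2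
  unfold cr
  rw [eq_div_iff (mul_ne_zero h1 h3), sub_mul, one_mul, div_mul_eq_mul_div, sub_eq_iff_eq_add,
    ← sub_eq_iff_eq_add', eq_div_iff (mul_ne_zero h1 h2)]
  unfold br
  ring

/-- the symbol -/
noncomputable def SS (x u v w : F × F) : B2 F := sy (cr x u v w)

lemma SS_12 (x u v w : F × F) : SS x v u w = - SS x u v w := by
  unfold SS; rw [cr_inv]; exact syinv _

lemma SS_13 (x u v w : F × F) : SS x w v u = - SS x u v w := by
  by_cases h1 : br x v = 0
  · unfold SS cr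
    rw [h1]
    simp only [zero_mul, div_zero, sy0, neg_zero]
  by_cases h2 : br w u = 0
  · have h3 : br u w = 0 := by rw [br_anti, h2, neg_zero]
    unfold SS cr
    rw [h2, h3]
    simp only [mul_zero, div_zero, sy0, neg_zero]
  unfold SS
  rw [← cr_compl h1 h2]
  exact sycompl _

lemma SS_23 (x u v w : F × F) : SS x u w v = - SS x u v w := by
  rw [SS_12 x w u v, SS_13 x v u w, SS_12 x u v w, neg_neg]

lemma SS_cyc (x u v w : F × F) : SS x v w u = SS x u v w := by
  rw [SS_13 x u w v, SS_23 x u v w, neg_neg]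

/-- **the relation of five points** -/
lemma five_pt {x u v w q : F × F} (xu : br x u ≠ 0) (xv : br x v ≠ 0) (xw : br x w ≠ 0)
    (xq : br x q ≠ 0) (uv : br u v ≠ 0) (uw : br u w ≠ 0) (vw : br v w ≠ 0) (qu : br q u ≠ 0)
    (qv : br q v ≠ 0) (qw : br q w ≠ 0) :
    SS x q u v + SS x q v w + SS x q w u = SS x u v w - sy (br w v * br q u / (br w u * br q v)) := by
  have vu : br v u ≠ 0 := by rw [br_anti]; exact neg_ne_zero.mpr uv
  have wu : br w u ≠ 0 := by rw [br_anti]; exact neg_ne_zero.mpr uw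
  have wv : br w v ≠ 0 := by rw [br_anti]; exact neg_ne_zero.mpr vw
  have uq : br u q ≠ 0 := by rw [br_anti]; exact neg_ne_zero.mpr qu
  have vq : br v q ≠ 0 := by rw [br_anti]; exact neg_ne_zero.mpr qv
  have wq : br w q ≠ 0 := by rw [br_anti]; exact neg_ne_zero.mpr qw
  have hx0 : cr x u v q ≠ 0 := div_ne_zero (mul_ne_zero xu qv) (mul_ne_zero xv qu)
  have hy0 : cr x u v w ≠ 0 := div_ne_zero (mul_ne_zero xu wv) (mul_ne_zero xv wu)
  have c1 : 1 - cr x u v q = cr x q v u := cr_compl xv qu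
  have c2 : 1 - cr x u v w = cr x w v u := cr_compl xv wu
  have c1' : cr x q v u ≠ 0 := div_ne_zero (mul_ne_zero xq uv) (mul_ne_zero xv uq)
  have c2' : cr x w v u ≠ 0 := div_ne_zero (mul_ne_zero xw uv) (mul_ne_zero xv uw)
  have hx1 : cr x u v q ≠ 1 := fun h => c1' (by rw [← c1, h, sub_self])
  have hy1 : cr x u v w ≠ 1 := fun h => c2' (by rw [← c2, h, sub_self])
  have e1 : cr x u v w / cr x u v q = br w v * br q u / (br w u * br q v) := by
    unfold cr; field_simp
  have e2 : (1 - cr x u v q) / (1 - cr x u v w) = cr x q w u := by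
    rw [c1, c2]
    unfold cr
    rw [br_anti u w, br_anti u q]
    field_simp
  have hxy : cr x u v q ≠ cr x u v w := by
    intro h
    have h2 := e2
    rw [h, div_self (by rw [c2]; exact c2')] at h2
    have h3 : 1 - cr x q w u = cr x u w q := cr_compl xw uq
    rw [← h2, sub_self] at h3
    exact div_ne_zero (mul_ne_zero xu qw) (mul_ne_zero xw qu) h3.symm
  have e3 : (1 - (cr x u v q)⁻¹) / (1 - (cr x u v w)⁻¹) = cr x q w v := by
    rw [← cr_inv x u v q, ← cr_inv x u v w, cr_compl xu qv, cr_compl xu wv]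
    unfold cr
    rw [br_anti v w, br_anti v q]
    field_simp
  have h := K4M.five hx0 hx1 hy0 hy1 hxy
  have h' : SS x u v q - SS x u v w + sy (br w v * br q u / (br w u * br q v)) - SS x q w v +
      SS x q w u = 0 := by
    unfold SS
    rw [← e1, ← e2, ← e3]
    exact h
  have r1 : SS x u v q = SS x q u v := SS_cyc x q u v
  have r2 : SS x q w v = - SS x q v w := SS_23 x q v w
  rw [r1, r2] at h'
  linear_combination (norm := module) h'

/-- **functions of degree two** -/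
lemma D2 {x u1 u2 v1 v2 w1 w2 : F × F} {l : F} (xu1 : br x u1 ≠ 0) (xu2 : br x u2 ≠ 0)
    (xv1 : br x v1 ≠ 0) (xv2 : br x v2 ≠ 0) (xw1 : br x w1 ≠ 0) (xw2 : br x w2 ≠ 0)
    (hl : l ≠ 0) (wu1 : br w1 u1 ≠ 0) (wu2 : br w1 u2 ≠ 0) (wv1 : br w1 v1 ≠ 0)
    (wv2 : br w1 v2 ≠ 0) (vu11 : br v1 u1 ≠ 0) (vu12 : br v1 u2 ≠ 0) (vu21 : br v2 u1 ≠ 0)
    (vu22 : br v2 u2 ≠ 0)
    (hx : br x v1 * br x v2 * (br w1 u1 * br w1 u2) - br w1 v1 * br w1 v2 * br x u1 * br x u2 =
      l * br x w1 * br x w2)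
    (h1 : -(br w1 v1 * br w1 v2 * br v1 u1 * br v1 u2) = l * br v1 w1 * br v1 w2)
    (h2 : -(br w1 v1 * br w1 v2 * br v2 u1 * br v2 u2) = l * br v2 w1 * br v2 w2) :
    sy (cr x u2 v2 w1 * cr x u1 v1 w1) = SS x u2 v2 w1 + SS x u1 v1 w1 - SS x u2 w2 v1 -
      SS x u1 w2 v2 := by
  have X0 : cr x u2 v2 w1 ≠ 0 := div_ne_zero (mul_ne_zero xu2 wv2) (mul_ne_zero xv2 wu2)
  have Y0 : cr x u1 v1 w1 ≠ 0 := div_ne_zero (mul_ne_zero xu1 wv1) (mul_ne_zero xv1 wu1)
  have uw1 : br u1 w1 ≠ 0 := by rw [br_anti]; exact neg_ne_zero.mpr wu1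
  have uw2 : br u2 w1 ≠ 0 := by rw [br_anti]; exact neg_ne_zero.mpr wu2
  have uv1 : br u1 v1 ≠ 0 := by rw [br_anti]; exact neg_ne_zero.mpr vu11
  have uv2 : br u2 v2 ≠ 0 := by rw [br_anti]; exact neg_ne_zero.mpr vu22
  have cX : 1 - cr x u2 v2 w1 = cr x w1 v2 u2 := cr_compl xv2 wu2
  have cY : 1 - cr x u1 v1 w1 = cr x w1 v1 u1 := cr_compl xv1 wu1
  have X1 : cr x u2 v2 w1 ≠ 1 := by
    intro h
    rw [h, sub_self] at cX
    exact div_ne_zero (mul_ne_zero xw1 uv2) (mul_ne_zero xv2 uw2) cX.symm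
  have Y1 : cr x u1 v1 w1 ≠ 1 := by
    intro h
    rw [h, sub_self] at cY
    exact div_ne_zero (mul_ne_zero xw1 uv1) (mul_ne_zero xv1 uw1) cY.symm
  have e0 : 1 - cr x u2 v2 w1 * cr x u1 v1 w1 = l * br x w1 * br x w2 /
      (br x v1 * br x v2 * (br w1 u1 * br w1 u2)) := by
    rw [← hx]
    unfold cr
    field_simp
  have n0 : 1 - cr x u2 v2 w1 * cr x u1 v1 w1 ≠ 0 := by
    rw [e0]
    exact div_ne_zero (mul_ne_zero (mul_ne_zero hl xw1) xw2)
      (mul_ne_zero (mul_ne_zero xv1 xv2) (mul_ne_zero wu1 wu2))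
  refine ft X0 X1 Y0 Y1 (fun h => n0 (by rw [h, sub_self])) ?_ ?_
  · rw [e0, cY]
    unfold cr
    rw [br_anti u1 w1, br_anti u1 v1]
    field_simp
    have h3 : br v1 w1 = - br w1 v1 := br_anti _ _
    rw [h3] at h1
    have h4 : br w1 v1 * (br w1 v2 * br v1 u1 * br v1 u2 - l * br v1 w2) = 0 := by
      linear_combination -h1
    rcases mul_eq_zero.mp h4 with h5 | h5
    · exact absurd h5 wv1
    · first
        | linear_combination -h5
        | linear_combination h5
  · rw [e0, cX]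
    unfold cr
    rw [br_anti u2 w1, br_anti u2 v2]
    field_simp
    have h3 : br v2 w1 = - br w1 v2 := br_anti _ _
    rw [h3] at h2
    have h4 : br w1 v2 * (br w1 v1 * br v2 u1 * br v2 u2 - l * br v2 w2) = 0 := by
      linear_combination -h2
    rcases mul_eq_zero.mp h4 with h5 | h5
    · exact absurd h5 wv2
    · first
        | linear_combination -h5
        | linear_combination h5

end

end Pool.Agent.KC72
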